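import Pool.Agent.Bootstrap.Extend

/-!
# The base state and the resting vectors
-/

namespace Pool.Agent.Bootstrap

open WtGroup

/-! ### Geodesic highway in `Fin ℓ → ZMod 2` -/

/-- the geodesic highway -/
def geo (ℓ : ℕ) (j : ℕ) : Fin ℓ → ZMod 2 := fun i => if (i : ℕ) < j then 1 else 0

theorem wt_pi {m : ℕ} (x : Fin m → ZMod 2) :
    wt x = (Finset.univ.filter (fun i => x i ≠ 0)).card := rfl

theorem wt_geo {ℓ i j : ℕ} (hij : i ≤ j) (hj : j ≤ ℓ) : wt (geo ℓ i + geo ℓ j) = j - i := by
  rw [wt_pi]
  have h1 : (Finset.univ.filter (fun k : Fin ℓ => (geo ℓ i + geo ℓ j) k ≠ 0)).map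
      Fin.valEmbedding = Finset.Ico i j := by
    ext k
    simp only [Finset.mem_map, Finset.mem_filter, Finset.mem_univ, true_and,
      Fin.valEmbedding_apply, Finset.mem_Ico, Pi.add_apply, geo]
    constructor
    · rintro ⟨k, hk, rfl⟩
      by_cases h1 : (k : ℕ) < i
      · rw [if_pos h1, if_pos (by omega)] at hk
        exact absurd (by decide) hk
      · by_cases h2 : (k : ℕ) < j
        · omega
        · rw [if_neg h1, if_neg h2] at hk
          exact absurd (by decide) hk
    · rintro ⟨h1, h2⟩
      refine ⟨⟨k, by omega⟩, ?_, rfl⟩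
      simp only
      rw [if_neg (by omega), if_pos h2]
      decide
  rw [← Finset.card_map Fin.valEmbedding, h1, Nat.card_Ico]

theorem wt_geo' {ℓ i j : ℕ} (hi : i ≤ ℓ) (hj : j ≤ ℓ) :
    wt (geo ℓ i + geo ℓ j) = (j - i) + (i - j) := by
  rcases le_total i j with h | h
  · rw [wt_geo h hj]; omega
  · rw [wt_comm, wt_geo h hi]; omega

/-- highway offsets in the base path -/
def bk (i : ℕ) : ℕ := if i = 0 ∨ 8 ≤ i then 0 else if i = 1 ∨ i = 7 then 1 else 2
/-- triples in the base path -/
def bt (i : ℕ) : Tri := if i ≤ 2 then 0 else if i ≤ 4 then tA else if i = 5 then tAB else tT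
/-- last layering coordinate in the base path -/
def be (i : ℕ) : ZMod 2 := if i ≤ 3 then 0 else 1

theorem base_check : ∀ j < 9, ∀ i ≤ j,
    min (j - i) 3 ≤ wt (bt i + bt j) + ((bk j - bk i) + (bk i - bk j)) + wt (be i + be j) ∧
    (j - i = 1 → wt (bt i + bt j) + ((bk j - bk i) + (bk i - bk j)) + wt (be i + be j) = 1) := by
  decide

variable {X : Type} [AddCommGroup X] [WtGroup X]

/-- the base path -/
def baseM (X : Type) [AddCommGroup X] (ℓ τ : ℕ) (i : ℕ) : Vx X (Fin ℓ → ZMod 2) Unit :=
  ⟨0, bt i, 0, geo ℓ (τ + bk i), (), be i⟩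

theorem dd_baseM {ℓ τ : ℕ} (h : τ + 2 ≤ ℓ) (a : X) (i j : ℕ) :
    dd a (baseM X ℓ τ i) (baseM X ℓ τ j) =
      wt a + (wt (bt i + bt j) + ((bk j - bk i) + (bk i - bk j)) + wt (be i + be j)) := by
  have hbk : ∀ i, bk i ≤ 2 := by intro i; unfold bk; split_ifs <;> omega
  have h1 := hbk i
  have h2 := hbk j
  have e : wt (() + ()) = 0 := rfl
  unfold dd baseM
  simp only [wt_geo' (show τ + bk i ≤ ℓ by omega) (show τ + bk j ≤ ℓ by omega), add_zero,
    zero_add, wt_zero]
  have e' : wt (PUnit.unit + PUnit.unit) = 0 := rfl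
  omega

theorem base_state {S : Set X} (hS : Resting S) {ℓ τ : ℕ} (h : τ + 2 ≤ ℓ) :
    State S 8 τ (baseM X ℓ τ) (geo ℓ) := by
  refine ⟨by norm_num, ⟨?_, ?_⟩, ?_, ?_, ?_, ?_, ?_, ?_⟩
  · intro i hi
    rw [wt_geo (by omega) (by omega)]
    omega
  · intro i j hij hj
    rw [wt_geo hij (by omega)]
    omega
  · intro i j hij hj
    obtain ⟨h1, h2⟩ := base_check j (by omega) i hij
    refine ⟨?_, ?_, ?_, ?_⟩
    · rw [dd_baseM h, wt_zero, zero_add]; exact h1
    · intro h3
      rw [dd_baseM h, wt_zero, zero_add]; exact h2 h3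
    · intro a ha
      have := hS.wt3 a ha
      rw [dd_baseM h]; omega
    · intro a ha b hb hab
      have := hS.wt2 a ha b hb hab
      rw [dd_baseM h]; omega
  · rfl
  · rfl
  · rfl
  · rfl
  · intro s hs hs' j hj
    have hk : bk s = 2 := by unfold bk; split_ifs <;> omega
    show 3 ≤ wt (geo ℓ (τ + bk s) + geo ℓ j)
    rw [hk, wt_geo' (by omega) (by omega)]
    omega

/-! ### Geodesics -/

/-- Every element is reached by a geodesic from `0`. -/
def Geo (G : Type) [AddCommGroup G] [WtGroup G] : Prop := ∀ x : G, HasPath x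

theorem geo_prod {A B : Type} [AddCommGroup A] [AddCommGroup B] [WtGroup A] [WtGroup B]
    (hA : Geo A) (hB : Geo B) : Geo (A × B) := by
  rintro ⟨a, b⟩
  obtain ⟨p, p0, p1, ps⟩ := hA a
  obtain ⟨q, q0, q1, qs⟩ := hB b
  refine ⟨fun k => if k ≤ wt a then (p k, 0) else (a, q (k - wt a)), ?_, ?_, ?_⟩
  · simp only
    rw [if_pos (by omega), p0]
    rfl
  · simp only [wt_prod]
    by_cases h : wt b = 0
    · rw [h, add_zero, if_pos le_rfl, p1]
      rw [h, q0] at q1
      rw [q1]
    · rw [if_neg (by omega), Nat.add_sub_cancel_left, q1]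
  · intro k hk
    rw [wt_prod] at hk
    simp only at hk ⊢
    by_cases h1 : k < wt a
    · rw [if_pos (by omega), if_pos (by omega)]
      simp only [wt_prod, Prod.mk_add_mk, add_zero, wt_zero]
      exact ps k h1
    by_cases h2 : k = wt a
    · rw [if_pos (by omega), if_neg (by omega), h2, p1]
      have e : wt a + 1 - wt a = 1 := by omega
      have := qs 0 (by omega)
      rw [q0] at this
      simp only [wt_prod, Prod.mk_add_mk, add_self, wt_zero, e]
      rw [zero_add]
      exact this
    · rw [if_neg (by omega), if_neg (by omega)]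
      simp only [wt_prod, Prod.mk_add_mk, add_self, wt_zero]
      have := qs (k - wt a) (by omega)
      have e : k + 1 - wt a = k - wt a + 1 := by omega
      rw [e, zero_add]
      exact this

theorem geo_zmod2 : Geo (ZMod 2) := by
  intro x
  refine ⟨fun k => if k = 0 then 0 else x, by simp, ?_, ?_⟩
  · revert x; decide
  · intro k hk
    have h1 : wt x ≤ 1 := (by decide : ∀ x : ZMod 2, wt x ≤ 1) x
    have h2 : k = 0 := by omega
    subst h2
    simp only [if_pos, zero_add]
    rw [if_neg (by omega)]
    omega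

theorem geo_pi (m : ℕ) : Geo (Fin m → ZMod 2) := by
  have key : ∀ w, ∀ x : Fin m → ZMod 2, wt x = w → HasPath x := by
    intro w
    induction w with
    | zero =>
      intro x hx
      refine ⟨fun _ => x, ?_, ?_, ?_⟩
      · rw [wt_pi, Finset.card_eq_zero, Finset.filter_eq_empty_iff] at hx
        funext i
        have := hx (Finset.mem_univ i)
        simpa using this
      · rfl
      · intro k hk; omega
    | succ w ih =>
      intro x hx
      have hne : (Finset.univ.filter (fun i => x i ≠ 0)).Nonempty := by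
        rw [← Finset.card_pos, ← wt_pi]; omega
      obtain ⟨i, hi⟩ := hne
      rw [Finset.mem_filter] at hi
      set y : Fin m → ZMod 2 := Function.update x i 0 with hy
      have hwy : wt y = w := by
        rw [wt_pi] at hx ⊢
        have : Finset.univ.filter (fun k => x k ≠ 0) =
            insert i (Finset.univ.filter (fun k => y k ≠ 0)) := by
          ext k
          simp only [Finset.mem_filter, Finset.mem_univ, true_and, Finset.mem_insert]
          by_cases hk : k = i
          · subst hk; simp [hi.2]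
          · simp [hy, hk]
        rw [this, Finset.card_insert_of_notMem] at hx
        · omega
        · simp [hy]
      have hxy : wt (y + x) = 1 := by
        rw [wt_pi, Finset.card_eq_one]
        refine ⟨i, ?_⟩
        ext k
        simp only [Finset.mem_filter, Finset.mem_univ, true_and, Finset.mem_singleton,
          Pi.add_apply]
        by_cases hk : k = i
        · subst hk
          simp only [hy, Function.update_self, zero_add, iff_true]
          exact hi.2
        · simp only [hy, Function.update_of_ne hk, add_self, ne_eq, not_true_eq_false, false_iff]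
          exact hk
      obtain ⟨p, p0, p1, ps⟩ := ih y hwy
      refine ⟨fun k => if k ≤ w then p k else x, ?_, ?_, ?_⟩
      · simp only; rw [if_pos (by omega), p0]
      · simp only; rw [hx, if_neg (by omega)]
      · intro k hk
        rw [hx] at hk
        rw [hwy] at p1 ps
        simp only
        by_cases h1 : k < w
        · rw [if_pos (by omega), if_pos (by omega)]; exact ps k h1
        · have h2 : k = w := by omega
          rw [if_pos (by omega), if_neg (by omega), h2, p1]
          exact hxy
  exact fun x => key _ x rfl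

/-! ### The resting vectors -/

/-- the binary digits of `l` -/
def bits (m l : ℕ) : Fin m → ZMod 2 := fun i => if l.testBit i then 1 else 0

/-- the group of resting vectors -/
abbrev XT (m : ℕ) := Tri × ZMod 2 × (Fin m → ZMod 2)

/-- the `l`-th resting vector -/
def rest (m l : ℕ) : XT m := (tT, ∑ i, bits m l i, bits m l)

theorem wt_bits_le (m l : ℕ) : wt (bits m l) ≤ l := by
  rw [wt_pi]
  have h1 : (Finset.univ.filter (fun i : Fin m => bits m l i ≠ 0)).map Fin.valEmbedding ⊆
      Finset.range l := by
    intro k hk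
    simp only [Finset.mem_map, Finset.mem_filter, Finset.mem_univ, true_and,
      Fin.valEmbedding_apply] at hk
    obtain ⟨i, hi, rfl⟩ := hk
    rw [Finset.mem_range]
    unfold bits at hi
    have h2 : l.testBit i = true := by
      by_contra h
      rw [if_neg h] at hi
      exact hi rfl
    have h3 := Nat.ge_two_pow_of_testBit h2
    exact lt_of_lt_of_le Nat.lt_two_pow_self h3
  have h2 := Finset.card_le_card h1
  rwa [Finset.card_map, Finset.card_range] at h2

theorem wt_rest (m l : ℕ) :
    wt (rest m l) = 3 + (wt (∑ i, bits m l i) + wt (bits m l)) := by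
  show wt tT + (wt (∑ i, bits m l i) + wt (bits m l)) = _
  rw [wt_tT]

theorem wt_rest_le (m l : ℕ) : wt (rest m l) ≤ l + 4 := by
  rw [wt_rest]
  have h1 := wt_bits_le m l
  have h2 : ∀ z : ZMod 2, wt z ≤ 1 := by decide
  have h3 := h2 (∑ i, bits m l i)
  omega

theorem wt_rest_ge (m l : ℕ) : 3 ≤ wt (rest m l) := by
  rw [wt_rest]
  omega

theorem wt_rest_add_eq (m l l' : ℕ) : wt (rest m l + rest m l') =
    wt (∑ i, bits m l i + ∑ i, bits m l' i) + wt (bits m l + bits m l') := by
  show wt (tT + tT) + (wt (∑ i, bits m l i + ∑ i, bits m l' i) + wt (bits m l + bits m l')) = _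
  rw [add_self, wt_zero, zero_add]

theorem wt_rest_add {m l l' : ℕ} (hl : l < 2 ^ m) (hl' : l' < 2 ^ m) (hne : l ≠ l') :
    2 ≤ wt (rest m l + rest m l') := by
  rw [wt_rest_add_eq]
  -- the digit vectors differ
  have h1 : 1 ≤ wt (bits m l + bits m l') := by
    rw [wt_pi, Nat.one_le_iff_ne_zero, ← Nat.pos_iff_ne_zero, Finset.card_pos]
    by_contra hcon
    rw [Finset.not_nonempty_iff_eq_empty, Finset.filter_eq_empty_iff] at hcon
    apply hne
    apply Nat.eq_of_testBit_eq
    intro i
    by_cases hi : i < m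
    · have h2 := hcon (Finset.mem_univ (⟨i, hi⟩ : Fin m))
      simp only [Pi.add_apply, bits, not_not] at h2
      by_cases a : l.testBit i <;> by_cases b : l'.testBit i <;> simp_all
    · have hp : 2 ^ m ≤ 2 ^ i := Nat.pow_le_pow_right (by norm_num) (by omega)
      rw [Nat.testBit_lt_two_pow (lt_of_lt_of_le hl hp),
        Nat.testBit_lt_two_pow (lt_of_lt_of_le hl' hp)]
  by_contra hcon
  have h2 : wt (bits m l + bits m l') = 1 := by omega
  have h3 : wt (∑ i, bits m l i + ∑ i, bits m l' i) = 0 := by omega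
  rw [← Finset.sum_add_distrib] at h3
  have h4 : ∑ i, (bits m l i + bits m l' i) = 0 := by
    revert h3
    generalize (∑ i, (bits m l i + bits m l' i)) = z
    revert z; decide
  rw [wt_pi, Finset.card_eq_one] at h2
  obtain ⟨i, hi⟩ := h2
  have h5 : ∑ k, (bits m l k + bits m l' k) = bits m l i + bits m l' i := by
    apply Finset.sum_eq_single
    · intro k _ hk
      by_contra h
      have : k ∈ ({i} : Finset (Fin m)) := by
        rw [← hi, Finset.mem_filter]
        exact ⟨Finset.mem_univ _, h⟩
      exact hk (Finset.mem_singleton.1 this)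
    · intro h; exact absurd (Finset.mem_univ i) h
  have h6 : i ∈ Finset.univ.filter (fun k => (bits m l + bits m l') k ≠ 0) := by
    rw [hi]; exact Finset.mem_singleton_self i
  rw [Finset.mem_filter] at h6
  apply h6.2
  rw [Pi.add_apply, ← h5, h4]

/-- the resting vectors with index in `[i, 2^m)` -/
def RS (m i : ℕ) : Set (XT m) := {x | ∃ l, i ≤ l ∧ l < 2 ^ m ∧ x = rest m l}

theorem resting_RS (m i : ℕ) : Resting (RS m i) := by
  constructor
  · rintro _ ⟨l, -, -, rfl⟩
    exact wt_rest_ge m l
  · rintro _ ⟨l, -, hl, rfl⟩ _ ⟨l', -, hl', rfl⟩ hne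
    exact wt_rest_add hl hl' (fun h => hne (by rw [h]))

theorem RS_succ_subset (m i : ℕ) : RS m (i + 1) ⊆ RS m i := by
  rintro _ ⟨l, h1, h2, rfl⟩
  exact ⟨l, by omega, h2, rfl⟩

theorem rest_mem {m i : ℕ} (h : i < 2 ^ m) : rest m i ∈ RS m i := ⟨i, le_rfl, h, rfl⟩

theorem rest_notMem {m i : ℕ} (h : i < 2 ^ m) : rest m i ∉ RS m (i + 1) := by
  rintro ⟨l, h1, h2, h3⟩
  have := wt_rest_add h h2 (by omega)
  rw [h3, add_self, wt_zero] at this
  omega

theorem hasPath_rest (m i : ℕ) : HasPath (rest m i) :=
  geo_prod (geo_prod geo_zmod2 (geo_prod geo_zmod2 geo_zmod2)) (geo_prod geo_zmod2 (geo_pi m)) _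

end Pool.Agent.Bootstrap
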