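import Pool.Agent.Bootstrap.Defs

/-! Basic facts on the bootstrap process. -/

namespace Pool.Agent.Bootstrap

variable {V W : Type*} {G : SimpleGraph V} {H : SimpleGraph W} {r : ℕ} {A B : Set V}

theorem mem_infected_succ {i : ℕ} {v : V} : v ∈ infected G r A (i + 1) ↔
    v ∈ infected G r A i ∨ r ≤ (G.neighborSet v ∩ infected G r A i).ncard := Iff.rfl

theorem infected_succ_subset (i : ℕ) : infected G r A i ⊆ infected G r A (i + 1) :=
  fun _ h => Or.inl h

theorem infected_mono {i j : ℕ} (h : i ≤ j) : infected G r A i ⊆ infected G r A j := by
  induction h with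
  | refl => exact subset_rfl
  | step _ ih => exact ih.trans (infected_succ_subset _)

theorem subset_infected (i : ℕ) : A ⊆ infected G r A i := infected_mono (Nat.zero_le i)

theorem infected_subset_closure (i : ℕ) : infected G r A i ⊆ closure G r A :=
  Set.subset_iUnion _ i

theorem mem_closure {v : V} : v ∈ closure G r A ↔ ∃ i, v ∈ infected G r A i := by
  simp [closure]

theorem subset_closure : A ⊆ closure G r A := infected_subset_closure 0

/-- If nothing changes in a step, the process has stopped. -/
theorem infected_stable {i : ℕ} (h : infected G r A (i + 1) = infected G r A i) :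
    ∀ j, i ≤ j → infected G r A j = infected G r A i := by
  intro j hj
  induction hj with
  | refl => rfl
  | step _ ih =>
    rename_i m _
    show infected G r A m ∪ {v | r ≤ (G.neighborSet v ∩ infected G r A m).ncard} = _
    rw [ih]
    exact h

theorem closure_eq_of_stable {i : ℕ} (h : infected G r A (i + 1) = infected G r A i) :
    closure G r A = infected G r A i := by
  apply Set.Subset.antisymm
  · intro v hv
    obtain ⟨j, hj⟩ := mem_closure.1 hv
    rcases le_total j i with hji | hij
    · exact infected_mono hji hj
    · rw [infected_stable h j hij] at hj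
      exact hj
  · exact infected_subset_closure i

theorem exists_infected_eq_closure [Finite V] : ∃ t, infected G r A t = closure G r A := by
  classical
  -- each vertex of the closure has an infection time; take the maximum
  have : ∀ v : V, ∃ i, v ∈ closure G r A → v ∈ infected G r A i := by
    intro v
    by_cases hv : v ∈ closure G r A
    · obtain ⟨i, hi⟩ := mem_closure.1 hv
      exact ⟨i, fun _ => hi⟩
    · exact ⟨0, fun h => absurd h hv⟩
  choose f hf using this
  obtain ⟨t, ht⟩ := (Set.finite_range f).bddAbove
  refine ⟨t, Set.Subset.antisymm (infected_subset_closure t) ?_⟩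
  intro v hv
  exact infected_mono (ht ⟨v, rfl⟩) (hf v hv)

theorem infected_time [Finite V] : infected G r A (time G r A) = closure G r A :=
  Nat.sInf_mem (s := {t | infected G r A t = closure G r A}) exists_infected_eq_closure

theorem infected_of_time_le [Finite V] {t : ℕ} (h : time G r A ≤ t) :
    infected G r A t = closure G r A :=
  Set.Subset.antisymm (infected_subset_closure t)
    (infected_time.symm.subset.trans (infected_mono h))

/-- A vertex that is eventually but not yet infected bounds the time from below. -/
theorem lt_time [Finite V] {t : ℕ} {v : V} (hv : v ∈ closure G r A)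
    (hv' : v ∉ infected G r A t) : t < time G r A := by
  by_contra h
  push Not at h
  rw [infected_of_time_le h] at hv'
  exact hv' hv

theorem infected_ne_of_lt_time [Finite V] {t : ℕ} (h : t < time G r A) :
    infected G r A t ≠ closure G r A := fun h' =>
  absurd (Nat.sInf_le (s := {t | infected G r A t = closure G r A}) h') (not_le.2 h)

theorem bddAbove_times [Finite V] (G : SimpleGraph V) (r : ℕ) :
    BddAbove {t | ∃ A : Set V, Percolates G r A ∧ time G r A = t} := by
  apply Set.Finite.bddAbove
  apply (Set.finite_range (fun A : Set V => time G r A)).subset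
  rintro t ⟨A, -, rfl⟩
  exact ⟨A, rfl⟩

theorem le_maxTime [Finite V] (h : Percolates G r A) : time G r A ≤ maxTime G r :=
  le_csSup (bddAbove_times G r) ⟨A, h, rfl⟩

theorem percolates_univ : Percolates G r (Set.univ : Set V) :=
  Set.eq_univ_of_univ_subset subset_closure

theorem isGreatest_maxTime [Finite V] (G : SimpleGraph V) (r : ℕ) :
    IsGreatest {t | ∃ A : Set V, Percolates G r A ∧ time G r A = t} (maxTime G r) := by
  refine ⟨Nat.sSup_mem ⟨_, Set.univ, percolates_univ, rfl⟩ (bddAbove_times G r), ?_⟩
  rintro t ⟨A, hA, rfl⟩
  exact le_maxTime hA

theorem maxTime_le [Finite V] {T : ℕ} (h : ∀ A : Set V, Percolates G r A → time G r A ≤ T) :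
    maxTime G r ≤ T := by
  obtain ⟨⟨A, hA, hT⟩, -⟩ := isGreatest_maxTime G r
  rw [← hT]
  exact h A hA

/-! ### Isomorphisms -/

theorem infected_iso (e : G ≃g H) (A : Set V) (i : ℕ) :
    infected H r (e '' A) i = e '' infected G r A i := by
  induction i with
  | zero => rfl
  | succ i ih =>
    ext w
    obtain ⟨v, rfl⟩ := e.surjective w
    rw [mem_infected_succ, ih]
    have h1 : H.neighborSet (e v) ∩ e '' infected G r A i =
        e '' (G.neighborSet v ∩ infected G r A i) := by
      ext u
      obtain ⟨u, rfl⟩ := e.surjective u
      simp only [Set.mem_inter_iff, SimpleGraph.mem_neighborSet, e.map_adj_iff,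
        e.injective.mem_set_image]
    rw [h1, Set.ncard_image_of_injective _ e.injective]
    rw [e.injective.mem_set_image, e.injective.mem_set_image, mem_infected_succ]

theorem closure_iso (e : G ≃g H) (A : Set V) :
    closure H r (e '' A) = e '' closure G r A := by
  unfold closure
  rw [Set.image_iUnion]
  exact Set.iUnion_congr fun i => infected_iso e A i

theorem maxTime_iso_le [Finite V] [Finite W] (e : G ≃g H) : maxTime G r ≤ maxTime H r := by
  apply maxTime_le
  intro A hA
  have hp : Percolates H r (e '' A) := by
    unfold Percolates
    rw [closure_iso, hA, Set.image_univ]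
    exact e.surjective.range_eq
  have ht : time H r (e '' A) = time G r A := by
    unfold time
    congr 1
    ext t
    show infected H r (e '' A) t = closure H r (e '' A) ↔ infected G r A t = closure G r A
    rw [infected_iso, closure_iso]
    exact e.injective.image_injective.eq_iff
  rw [← ht]
  exact le_maxTime hp

theorem maxTime_iso [Finite V] [Finite W] (e : G ≃g H) : maxTime G r = maxTime H r :=
  le_antisymm (maxTime_iso_le e) (maxTime_iso_le e.symm)

end Pool.Agent.Bootstrap
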