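import Pool.Agent.Bootstrap.Reduce

/-! Products and degrees of hypercubes. -/

namespace Pool.Agent.Bootstrap

open SimpleGraph

theorem hammingDist_append {q m n : ℕ} (x x' : Fin m → Fin q) (y y' : Fin n → Fin q) :
    hammingDist (Fin.append x y) (Fin.append x' y') = hammingDist x x' + hammingDist y y' := by
  unfold hammingDist
  simp only [Finset.card_filter]
  rw [Fin.sum_univ_add]
  simp

/-- `Q_{m,q} □ Q_{n,q} ≅ Q_{m+n,q}`. -/
def cubeProd (m n q : ℕ) : (hypercube m q □ hypercube n q) ≃g hypercube (m + n) q where
  toEquiv := Fin.appendEquiv m n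
  map_rel_iff' := by
    rintro ⟨x, y⟩ ⟨x', y'⟩
    show hammingDist (Fin.append x y) (Fin.append x' y') = 1 ↔ _
    rw [hammingDist_append, boxProd_adj]
    show _ ↔ (hammingDist x x' = 1 ∧ y = y') ∨ (hammingDist y y' = 1 ∧ x = x')
    rw [← hammingDist_eq_zero (x := y), ← hammingDist_eq_zero (x := x)]
    omega

theorem hammingDist_eq_one_iff {q n : ℕ} (x y : Fin n → Fin q) :
    hammingDist x y = 1 ↔ ∃ i, ∃ c, c ≠ x i ∧ y = Function.update x i c := by
  constructor
  · intro h
    unfold hammingDist at h
    rw [Finset.card_eq_one] at h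
    obtain ⟨i, hi⟩ := h
    refine ⟨i, y i, ?_, ?_⟩
    · have : i ∈ ({i} : Finset (Fin n)) := Finset.mem_singleton_self i
      rw [← hi] at this
      simpa [eq_comm] using this
    · ext j
      by_cases hj : j = i
      · subst hj; simp
      · rw [Function.update_of_ne hj]
        by_contra hne
        have : j ∈ ({i} : Finset (Fin n)) := by
          rw [← hi]
          simp only [ne_eq, Finset.mem_filter, Finset.mem_univ, true_and]
          intro h'
          exact hne (by rw [h'])
        exact hj (Finset.mem_singleton.1 this)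
  · rintro ⟨i, c, hc, rfl⟩
    unfold hammingDist
    rw [Finset.card_eq_one]
    refine ⟨i, ?_⟩
    ext j
    simp only [ne_eq, Finset.mem_filter, Finset.mem_univ, true_and, Finset.mem_singleton]
    by_cases hj : j = i
    · subst hj; simp [hc.symm]
    · simp [hj]

/-- The hypercube `Q_{n,q}` is `n(q-1)`-regular. -/
theorem degree_hypercube (n q : ℕ) (x : Fin n → Fin q) :
    ((hypercube n q).neighborSet x).ncard = n * (q - 1) := by
  classical
  let S : Finset (Σ _ : Fin n, Fin q) :=
    (Finset.univ : Finset (Fin n)).sigma (fun i => (Finset.univ : Finset (Fin q)).erase (x i))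
  have h1 : (hypercube n q).neighborSet x =
      ((S.image (fun p => Function.update x p.1 p.2) : Finset (Fin n → Fin q)) :
        Set (Fin n → Fin q)) := by
    ext y
    show hammingDist x y = 1 ↔ _
    rw [hammingDist_eq_one_iff]
    simp only [Finset.coe_image, Set.mem_image, Finset.mem_coe, S, Finset.mem_sigma,
      Finset.mem_univ, true_and, Finset.mem_erase, ne_eq, and_true, Sigma.exists]
    constructor
    · rintro ⟨i, c, h, rfl⟩; exact ⟨i, c, h, rfl⟩
    · rintro ⟨i, c, h, rfl⟩; exact ⟨i, c, h, rfl⟩
  rw [h1, Set.ncard_coe_finset, Finset.card_image_of_injOn]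
  · rw [Finset.card_sigma]
    simp
  · rintro ⟨i, c⟩ hi ⟨j, d⟩ hj h
    simp only [S, Finset.coe_sigma, Finset.coe_univ, Finset.coe_erase, Set.mem_sigma_iff,
      Set.mem_univ, Set.mem_diff, Set.mem_singleton_iff, true_and] at hi hj
    simp only at h
    by_cases hij : i = j
    · subst hij
      have := congrFun h i
      simp at this
      rw [this]
    · exfalso
      have := congrFun h i
      rw [Function.update_self, Function.update_of_ne hij] at this
      exact hi this

end Pool.Agent.Bootstrap
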