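import Mathlib

/-!
# `r`-neighbour bootstrap percolation on graphs and the maximum percolation time

All definitions follow the problem file of `MP_df66b4_co` literally.
-/

namespace Pool.Agent.Bootstrap

/-- The `n`-dimensional `q`-ary hypercube `Q_{n,q}`: the vertices are the words of length `n` over
`{0, …, q-1}`, two of them being adjacent iff they differ in exactly one coordinate
(Hamming distance `1`). -/
def hypercube (n q : ℕ) : SimpleGraph (Fin n → Fin q) where
  Adj x y := hammingDist x y = 1
  symm := ⟨fun x y h => by rw [hammingDist_comm]; exact h⟩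
  loopless := ⟨fun x h => by simp at h⟩

variable {V : Type*}

/-- The set `A_i` of vertices infected after `i` rounds of the `r`-neighbour bootstrap process on
`G` started from `A_0 = A`: `A_{i+1} = A_i ∪ {v : |N_v ∩ A_i| ≥ r}`. -/
def infected (G : SimpleGraph V) (r : ℕ) (A : Set V) : ℕ → Set V
  | 0 => A
  | i + 1 => infected G r A i ∪ {v | r ≤ (G.neighborSet v ∩ infected G r A i).ncard}

/-- The final infected set `⟨A⟩ = ⋃ i, A_i`. -/
def closure (G : SimpleGraph V) (r : ℕ) (A : Set V) : Set V := ⋃ i, infected G r A i

/-- `A` percolates if `⟨A⟩` is the whole vertex set. -/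
def Percolates (G : SimpleGraph V) (r : ℕ) (A : Set V) : Prop := closure G r A = Set.univ

/-- `T_G(A) = min {t : A_t = ⟨A⟩}`. -/
noncomputable def time (G : SimpleGraph V) (r : ℕ) (A : Set V) : ℕ :=
  sInf {t | infected G r A t = closure G r A}

/-- `M(G, r) = max {T_G(A) : A ⊆ V, ⟨A⟩ = V}`. -/
noncomputable def maxTime (G : SimpleGraph V) (r : ℕ) : ℕ :=
  sSup {t | ∃ A : Set V, Percolates G r A ∧ time G r A = t}

end Pool.Agent.Bootstrap
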