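import Pool.Agent.Bootstrap.Soft

/-!
# The doubling step
-/

namespace Pool.Agent.Bootstrap

open WtGroup

variable {X K L : Type} [AddCommGroup X] [WtGroup X] [AddCommGroup K] [WtGroup K]
  [AddCommGroup L] [WtGroup L]

/-- lower copy -/
def low (u : Vx X K L) : Vx X K (L × ZMod 2) := ⟨u.x, u.t', u.t, u.k, (u.l, u.e), 0⟩
/-- upper copy -/
def upp (h : X) (u : Vx X K L) : Vx X K (L × ZMod 2) :=
  ⟨u.x + h, u.t', u.t, u.k, (u.l, u.e), 1⟩

theorem dd_low_low (a : X) (u v : Vx X K L) : dd a (low u) (low v) = dd a u v := by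
  unfold dd low
  simp only [add_self, wt_zero, wt_prod, Prod.mk_add_mk]
  omega

theorem dd_upp_upp (a h : X) (u v : Vx X K L) : dd a (upp h u) (upp h v) = dd a u v := by
  unfold dd upp
  simp only [cancel_right, add_self, wt_zero, wt_prod, Prod.mk_add_mk]
  omega

theorem dd_low_upp (a h : X) (u v : Vx X K L) :
    dd a (low u) (upp h v) = dd (h + a) u v + 1 := by
  unfold dd upp low
  have e : u.x + (v.x + h) + a = u.x + v.x + (h + a) := by abel
  simp only [e, zero_add, wt_one2, wt_prod, Prod.mk_add_mk]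
  omega

theorem phi_low_low {S : Set X} {d : ℕ} {u v : Vx X K L} (h : Phi S d u v) :
    Phi S d (low u) (low v) := by
  refine ⟨?_, ?_, ?_, ?_⟩
  · rw [dd_low_low]; exact h.spread
  · rw [dd_low_low]; exact h.adj
  · intro a ha; rw [dd_low_low]; exact h.inv1 a ha
  · intro a ha b hb hab; rw [dd_low_low]; exact h.inv2 a ha b hb hab

theorem phi_upp_upp {S : Set X} {d : ℕ} {u v : Vx X K L} (c : X) (h : Phi S d u v) :
    Phi S d (upp c u) (upp c v) := by
  refine ⟨?_, ?_, ?_, ?_⟩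
  · rw [dd_upp_upp]; exact h.spread
  · rw [dd_upp_upp]; exact h.adj
  · intro a ha; rw [dd_upp_upp]; exact h.inv1 a ha
  · intro a ha b hb hab; rw [dd_upp_upp]; exact h.inv2 a ha b hb hab

theorem phi_low_upp {S S' : Set X} (hS' : S' ⊆ S) {c : X} (hc : c ∈ S) (hc' : c ∉ S') {d : ℕ}
    {u v : Vx X K L} (h : Phi S d u v) : Phi S' 3 (low u) (upp c v) := by
  refine ⟨?_, ?_, ?_, ?_⟩
  · rw [dd_low_upp, add_zero]
    have := h.inv1 c hc
    omega
  · intro h; omega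
  · intro a ha
    rw [dd_low_upp]
    have := h.inv2 c hc a (hS' ha) (by rintro rfl; exact hc' ha)
    omega
  · intro a ha b hb hab
    rw [dd_low_upp]
    omega

/-! ### Tracks -/

/-- lower track -/
def gL (r : ℕ → K) (i : ℕ) : Vx X K (L × ZMod 2) := ⟨0, 0, 0, r i, 0, 0⟩
/-- lower track, end side -/
def gcL (r : ℕ → K) (i : ℕ) : Vx X K (L × ZMod 2) := ⟨0, 0, tT, r i, (0, 1), 0⟩
/-- upper track -/
def gU (sx : ℕ → X) (st : ℕ → Tri) (r : ℕ → K) (i : ℕ) : Vx X K (L × ZMod 2) :=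
  ⟨sx (i / 4), st (i / 4), 0, r (pos i), 0, 1⟩
/-- upper track, end side -/
def gcU (sx : ℕ → X) (st : ℕ → Tri) (r : ℕ → K) (i : ℕ) : Vx X K (L × ZMod 2) :=
  ⟨sx (i / 4), st (i / 4), tT, r (pos i), (0, 1), 1⟩
/-- first U-turn vertex -/
def uu1 (r : ℕ → K) : Vx X K (L × ZMod 2) := ⟨0, tA, tT, r 2, (0, 1), 0⟩
/-- second U-turn vertex -/
def uu2 (r : ℕ → K) : Vx X K (L × ZMod 2) := ⟨0, tA, tT, r 2, (0, 1), 1⟩
/-- third U-turn vertex -/
def uu3 (r : ℕ → K) : Vx X K (L × ZMod 2) := ⟨0, tAB, tT, r 2, (0, 1), 1⟩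

section
variable (r : ℕ → K) (sx : ℕ → X) (st : ℕ → Tri) (a : X) (i j : ℕ)

theorem dd_gL_gL : dd a (gL (L := L) r i) (gL r j) = wt a + wt (r i + r j) := by
  simp [dd, gL]

theorem dd_gcL_gcL : dd a (gcL (L := L) r i) (gcL r j) = wt a + wt (r i + r j) := by
  simp [dd, gcL]

theorem dd_gU_gU : dd a (gU (L := L) sx st r i) (gU sx st r j) = trk sx st r a i j := by
  simp [dd, gU, trk]

theorem dd_gcU_gcU : dd a (gcU (L := L) sx st r i) (gcU sx st r j) = trk sx st r a i j := by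
  simp [dd, gcU, trk]

theorem dd_gL_gU : dd a (gL (L := L) r i) (gU sx st r j) =
    wt (sx (j / 4) + a) + wt (st (j / 4)) + wt (r i + r (pos j)) + 1 := by
  simp [dd, gL, gU, wt_one2]

theorem dd_gcL_gcU : dd a (gcL (L := L) r i) (gcU sx st r j) =
    wt (sx (j / 4) + a) + wt (st (j / 4)) + wt (r i + r (pos j)) + 1 := by
  simp [dd, gcL, gcU, wt_one2]

theorem dd_gcL_uu1 : dd a (gcL (L := L) r i) (uu1 r) = wt a + 1 + wt (r i + r 2) := by
  simp [dd, gcL, uu1, wt_tA]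

theorem dd_gcL_uu2 : dd a (gcL (L := L) r i) (uu2 r) = wt a + 1 + wt (r i + r 2) + 1 := by
  simp [dd, gcL, uu2, wt_tA, wt_one2]

theorem dd_gcL_uu3 : dd a (gcL (L := L) r i) (uu3 r) = wt a + 2 + wt (r i + r 2) + 1 := by
  simp [dd, gcL, uu3, wt_tAB, wt_one2]

theorem dd_uu1_gcU : dd a (uu1 (L := L) r) (gcU sx st r j) =
    wt (sx (j / 4) + a) + wt (tA + st (j / 4)) + wt (r 2 + r (pos j)) + 1 := by
  simp [dd, uu1, gcU, wt_one2]

theorem dd_uu2_gcU : dd a (uu2 (L := L) r) (gcU sx st r j) =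
    wt (sx (j / 4) + a) + wt (tA + st (j / 4)) + wt (r 2 + r (pos j)) := by
  simp [dd, uu2, gcU]

theorem dd_uu3_gcU : dd a (uu3 (L := L) r) (gcU sx st r j) =
    wt (sx (j / 4) + a) + wt (tAB + st (j / 4)) + wt (r 2 + r (pos j)) := by
  simp [dd, uu3, gcU]

theorem dd_uu_self1 : dd a (uu1 (X := X) (L := L) r) (uu1 r) = wt a := by simp [dd, uu1]
theorem dd_uu_self2 : dd a (uu2 (X := X) (L := L) r) (uu2 r) = wt a := by simp [dd, uu2]
theorem dd_uu_self3 : dd a (uu3 (X := X) (L := L) r) (uu3 r) = wt a := by simp [dd, uu3]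
theorem dd_uu12 : dd a (uu1 (X := X) (L := L) r) (uu2 r) = wt a + 1 := by
  simp [dd, uu1, uu2, wt_one2]
theorem dd_uu13 : dd a (uu1 (X := X) (L := L) r) (uu3 r) = wt a + 1 + 1 := by
  simp [dd, uu1, uu3, wt_one2, wt_tA_tAB]
theorem dd_uu23 : dd a (uu2 (X := X) (L := L) r) (uu3 r) = wt a + 1 := by
  simp [dd, uu2, uu3, wt_tA_tAB]

end

end Pool.Agent.Bootstrap
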