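import Pool.Agent.Bootstrap.DoubleStep

/-!
# The doubling step: assembly
-/

namespace Pool.Agent.Bootstrap

open WtGroup

variable {X K L : Type} [AddCommGroup X] [WtGroup X] [AddCommGroup K] [WtGroup K]
  [AddCommGroup L] [WtGroup L]

theorem Resting.mono {S S' : Set X} (h : Resting S) (hS : S' ⊆ S) : Resting S' :=
  ⟨fun a ha => h.wt3 a (hS ha), fun a ha b hb => h.wt2 a (hS ha) b (hS hb)⟩

/-- the doubled path -/
def dbl {α : Type} (a n' : ℕ) (EL EU : ℕ → α) (u1 u2 u3 : α) (i : ℕ) : α :=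
  if i < a then EL i else if i = a then u1 else if i = a + 1 then u2 else
    if i = a + 2 then u3 else EU (n' - i)

section
variable {α : Type} {a n' : ℕ} {EL EU : ℕ → α} {u1 u2 u3 : α}

theorem dbl_lt {i : ℕ} (h : i < a) : dbl a n' EL EU u1 u2 u3 i = EL i := by
  unfold dbl; rw [if_pos h]
theorem dbl_0 : dbl a n' EL EU u1 u2 u3 a = u1 := by
  unfold dbl; rw [if_neg (by omega), if_pos rfl]
theorem dbl_1 : dbl a n' EL EU u1 u2 u3 (a + 1) = u2 := by
  unfold dbl; rw [if_neg (by omega), if_neg (by omega), if_pos rfl]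
theorem dbl_2 : dbl a n' EL EU u1 u2 u3 (a + 2) = u3 := by
  unfold dbl; rw [if_neg (by omega), if_neg (by omega), if_neg (by omega), if_pos rfl]
theorem dbl_gt {i : ℕ} (h : a + 3 ≤ i) : dbl a n' EL EU u1 u2 u3 i = EU (n' - i) := by
  unfold dbl; rw [if_neg (by omega), if_neg (by omega), if_neg (by omega), if_neg (by omega)]

end

theorem State.double {S S' : Set X} {n τ τ' : ℕ} {M : ℕ → Vx X K L} {R : ℕ → K}
    (st0 : State S n τ M R) (hS : Resting S) (hS' : S' ⊆ S) {h : X} (hh : h ∈ S) (hh' : h ∉ S')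
    (hp : HasPath h) (hτ : τ = τ' + (3 * (wt h + 3) + 1)) :
    ∃ n', ∃ M' : ℕ → Vx X K (L × ZMod 2), State S' n' τ' M' R ∧ 2 * (n + 1) ≤ n' + 1 := by
  obtain ⟨sx, st, Q⟩ := exists_softSeq hS hS' hh hh' hp
  set m := wt h + 3 with hm
  have hRS := hS.mono hS'
  have hn := st0.hn
  let r : ℕ → K := fun i => R (τ' + i)
  have hr : ∀ i, r i = R (τ' + i) := fun i => rfl
  have Radj : ∀ i ≤ 3 * m + 1, wt (r i + r (i + 1)) = 1 := fun i hi =>
    st0.high.adj (τ' + i) (by omega)
  have Rsp : ∀ i j, i ≤ j → j ≤ 3 * m + 2 → min (j - i) 3 ≤ wt (r i + r j) := by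
    intro i j hij hj
    have := st0.high.spread (τ' + i) (τ' + j) (by omega) (by omega)
    rw [hr, hr]
    omega
  have bulk : ∀ s i, s ≤ n → i + 3 ≤ 3 * m + 1 → 3 ≤ wt ((M s).k + r i) := fun s i hs hi =>
    st0.bulkAll hs (by omega)
  have bulk' : ∀ s i, 2 ≤ s → s + 2 ≤ n → i < 3 * m + 1 → 3 ≤ wt ((M s).k + r i) :=
    fun s i hs hs' hi => st0.bulk s hs hs' _ (by omega)
  -- the two extended paths
  have FL : Fits (3 * m + 1) n (gL (X := X) (L := L) r) (gcL r) (fun s => low (M s)) := by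
    refine ⟨hn, ?_, ?_, ?_, ?_⟩
    · show low (M 0) = _
      rw [st0.start0, hτ]; rfl
    · show low (M 1) = _
      rw [st0.start1, hτ]; rfl
    · show low (M n) = _
      rw [st0.end0, hτ]; rfl
    · show low (M (n - 1)) = _
      rw [st0.end1, hτ]; rfl
  have p1 : pos (4 * m + 1) = 3 * m + 1 := by unfold pos; omega
  have p2 : pos (4 * m + 1 + 1) = 3 * m + 2 := by unfold pos; omega
  have d1 : (4 * m + 1) / 4 = m := by omega
  have d2 : (4 * m + 1 + 1) / 4 = m := by omega
  have FU : Fits (4 * m + 1) n (gU (L := L) sx st r) (gcU sx st r) (fun s => upp h (M s)) := by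
    refine ⟨hn, ?_, ?_, ?_, ?_⟩
    · show upp h (M 0) = _
      rw [st0.start0, hτ]
      unfold upp gU
      rw [p1, d1, Q.xm, Q.tm, zero_add]; rfl
    · show upp h (M 1) = _
      rw [st0.start1, hτ]
      unfold upp gU
      rw [p2, d2, Q.xm, Q.tm, zero_add]; rfl
    · show upp h (M n) = _
      rw [st0.end0, hτ]
      unfold upp gcU
      rw [p1, d1, Q.xm, Q.tm, zero_add]
    · show upp h (M (n - 1)) = _
      rw [st0.end1, hτ]
      unfold upp gcU
      rw [p2, d2, Q.xm, Q.tm, zero_add]; rfl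
  have htT : 3 ≤ wt ((0 : Tri) + tT) := by decide
  have htT' : 3 ≤ wt (tT + (0 : Tri)) := by decide
  -- pairs in the lower path
  have LL := FL.pair (Phi S')
    (fun i j hij hj => phi_gL hRS Radj Rsp hij hj)
    (fun i j hij hj => phi_gcL hRS Radj Rsp hij hj)
    (fun i j hij hj => phi_low_low ((st0.phi i j hij hj).mono hS'))
    (fun i s d hi hs hs' hd => Phi.symm (Phi.of_k (bulk' s i hs hs' hi) hd))
    (fun i s d hi hs hs' hd => Phi.of_k (bulk' s i hs hs' hi) hd)
    (fun i j d _ _ hd => Phi.of_t' htT hd)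
  -- pairs in the upper path
  have hpos : ∀ i, i < 4 * m + 1 → pos i < 3 * m + 1 := by intro i hi; unfold pos; omega
  have UU := FU.pair (Phi S')
    (fun i j hij hj => phi_gU hRS Q Radj Rsp hij (by omega))
    (fun i j hij hj => phi_gcU hRS Q Radj Rsp hij (by omega))
    (fun i j hij hj => phi_upp_upp h ((st0.phi i j hij hj).mono hS'))
    (fun i s d hi hs hs' hd => Phi.symm (Phi.of_k (bulk' s (pos i) hs hs' (hpos i hi)) hd))
    (fun i s d hi hs hs' hd => Phi.of_k (bulk' s (pos i) hs hs' (hpos i hi)) hd)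
    (fun i j d _ _ hd => Phi.of_t' htT hd)
  -- cross pairs
  have LU := FL.cross FU (Phi S' 3)
    (fun i j _ hj => phi_gL_gU Q (by omega))
    (fun i j _ hj => phi_gcL_gcU Q (by omega))
    (fun i j _ _ => Phi.of_t' htT (by omega))
    (fun i j _ _ => Phi.of_t' htT' (by omega))
    (fun i j hi hj => by
      rcases le_total i j with hij | hij
      · exact phi_low_upp hS' hh hh' (st0.phi i j hij hj)
      · exact phi_low_upp hS' hh hh' (st0.phi j i hij hi).symm)
    (fun i s hi hs hs' => Phi.symm (Phi.of_k (bulk' s i hs hs' hi) (by omega)))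
    (fun s j hj hs hs' => Phi.of_k (bulk' s (pos j) hs hs' (hpos j hj)) (by omega))
    (fun i s hi hs hs' => Phi.symm (Phi.of_k (bulk' s i hs hs' hi) (by omega)))
    (fun s j hj hs hs' => Phi.of_k (bulk' s (pos j) hs hs' (hpos j hj)) (by omega))
  set EL := ext (3 * m + 1) n (gL (X := X) (L := L) r) (gcL r) (fun s => low (M s)) with hEL
  set EU := ext (4 * m + 1) n (gU (L := L) sx st r) (gcU sx st r) (fun s => upp h (M s)) with hEU
  -- lower path against the U-turn
  have LX : ∀ i, i < 2 * (3 * m + 1) + n - 1 →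
      Phi S' (2 * (3 * m + 1) + n - 1 - i) (EL i) (uu1 r) ∧
      Phi S' (2 * (3 * m + 1) + n - 1 + 1 - i) (EL i) (uu2 r) ∧
      Phi S' (2 * (3 * m + 1) + n - 1 + 2 - i) (EL i) (uu3 r) := by
    intro i hi
    by_cases h1 : i ≤ 3 * m + 1 + 1
    · rw [hEL, FL.ext_A h1]
      exact ⟨Phi.of_t' htT (by omega), Phi.of_t' htT (by omega), Phi.of_t' htT (by omega)⟩
    by_cases h2 : 3 * m + 1 + n ≤ i + 1
    · rw [hEL, FL.ext_C h2 (by omega)]
      obtain ⟨g1, g2, g3⟩ := phi_gcL_uu (L := L) hRS Rsp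
        (p := 2 * (3 * m + 1) + n - i) (by omega) (by omega)
      have e1 : 2 * (3 * m + 1) + n - 1 - i = 2 * (3 * m + 1) + n - i - 1 := by omega
      have e2 : 2 * (3 * m + 1) + n - 1 + 1 - i = 2 * (3 * m + 1) + n - i := by omega
      have e3 : 2 * (3 * m + 1) + n - 1 + 2 - i = 2 * (3 * m + 1) + n - i + 1 := by omega
      rw [e1, e2, e3]
      exact ⟨g1, g2, g3⟩
    · rw [hEL, ext_mid (by omega) (by omega)]
      have hb := bulk' (i - (3 * m + 1)) 2 (by omega) (by omega) (by omega)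
      exact ⟨Phi.of_k hb (by omega), Phi.of_k hb (by omega), Phi.of_k hb (by omega)⟩
  -- the U-turn against the upper path
  have XU : ∀ i, i < 2 * (4 * m + 1) + n - 1 →
      Phi S' (2 * (4 * m + 1) + n - i + 1) (uu1 r) (EU i) ∧
      Phi S' (2 * (4 * m + 1) + n - i) (uu2 r) (EU i) ∧
      Phi S' (2 * (4 * m + 1) + n - i - 1) (uu3 r) (EU i) := by
    intro i hi
    by_cases h1 : i ≤ 4 * m + 1 + 1
    · rw [hEU, FU.ext_A h1]
      exact ⟨Phi.of_t' htT' (by omega), Phi.of_t' htT' (by omega), Phi.of_t' htT' (by omega)⟩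
    by_cases h2 : 4 * m + 1 + n ≤ i + 1
    · rw [hEU, FU.ext_C h2 (by omega)]
      exact phi_uu_gcU (L := L) hRS Q Rsp (p := 2 * (4 * m + 1) + n - i) (by omega) (by omega)
    · rw [hEU, ext_mid (by omega) (by omega)]
      have hb : 3 ≤ wt (r 2 + (M (i - (4 * m + 1))).k) := by
        rw [wt_comm]
        exact bulk' (i - (4 * m + 1)) 2 (by omega) (by omega) (by omega)
      exact ⟨Phi.of_k hb (by omega), Phi.of_k hb (by omega), Phi.of_k hb (by omega)⟩
  obtain ⟨X11, X22, X33, X12, X13, X23⟩ := phi_uu_uu (X := X) (L := L) hRS r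
  -- the new path
  set a := 2 * (3 * m + 1) + n - 1 with ha
  set b := 2 * (4 * m + 1) + n - 1 with hb
  have hphi : ∀ i j, i ≤ j → j ≤ a + b + 2 → Phi S' (j - i)
      (dbl a (a + b + 2) EL EU (uu1 r) (uu2 r) (uu3 r) i)
      (dbl a (a + b + 2) EL EU (uu1 r) (uu2 r) (uu3 r) j) := by
    intro i j hij hj
    by_cases h1 : j < a
    · rw [dbl_lt h1, dbl_lt (by omega)]
      exact LL i j hij (by omega)
    by_cases h2 : a + 3 ≤ i
    · rw [dbl_gt h2, dbl_gt (by omega)]
      apply Phi.symm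
      have := UU (a + b + 2 - j) (a + b + 2 - i) (by omega) (by omega)
      have e : a + b + 2 - i - (a + b + 2 - j) = j - i := by omega
      rw [e] at this
      exact this
    by_cases h3 : i < a
    · rw [dbl_lt h3]
      by_cases h4 : a + 3 ≤ j
      · rw [dbl_gt h4]
        exact (LU i (a + b + 2 - j) (by omega) (by omega)).of_three (by omega)
      · obtain ⟨g1, g2, g3⟩ := LX i h3
        rcases (by omega : j = a ∨ j = a + 1 ∨ j = a + 2) with e | e | e
        · rw [e, dbl_0]; exact g1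
        · rw [e, dbl_1]; exact g2
        · rw [e, dbl_2]; exact g3
    · by_cases h4 : a + 3 ≤ j
      · rw [dbl_gt h4]
        obtain ⟨g1, g2, g3⟩ := XU (a + b + 2 - j) (by omega)
        rcases (by omega : i = a ∨ i = a + 1 ∨ i = a + 2) with e | e | e
        · rw [e, dbl_0]
          have e' : 2 * (4 * m + 1) + n - (a + b + 2 - j) + 1 = j - a := by omega
          rw [e'] at g1
          exact g1
        · rw [e, dbl_1]
          have e' : 2 * (4 * m + 1) + n - (a + b + 2 - j) = j - (a + 1) := by omega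
          rw [e'] at g2
          exact g2
        · rw [e, dbl_2]
          have e' : 2 * (4 * m + 1) + n - (a + b + 2 - j) - 1 = j - (a + 2) := by omega
          rw [e'] at g3
          exact g3
      · rcases (by omega : i = a ∧ j = a ∨ i = a ∧ j = a + 1 ∨ i = a ∧ j = a + 2 ∨
          i = a + 1 ∧ j = a + 1 ∨ i = a + 1 ∧ j = a + 2 ∨ i = a + 2 ∧ j = a + 2) with
          e | e | e | e | e | e
        · rw [e.1, e.2, dbl_0, Nat.sub_self]; exact X11
        · rw [e.1, e.2, dbl_0, dbl_1, Nat.add_sub_cancel_left]; exact X12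
        · rw [e.1, e.2, dbl_0, dbl_2, Nat.add_sub_cancel_left]; exact X13
        · rw [e.1, e.2, dbl_1, Nat.sub_self]; exact X22
        · rw [e.1, e.2, dbl_1, dbl_2]
          have e' : a + 2 - (a + 1) = 1 := by omega
          rw [e']; exact X23
        · rw [e.1, e.2, dbl_2, Nat.sub_self]; exact X33
  have hspr : ∀ i j, i + 3 ≤ j → j ≤ 3 * m + 2 → 3 ≤ wt (r i + r j) := by
    intro i j hij hj
    have := Rsp i j (by omega) hj
    omega
  -- highway vertices with index at least two are far from the remaining highway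
  have hfar : ∀ p j, 2 ≤ p → p ≤ 3 * m + 2 → j < τ' → 3 ≤ wt (r p + R j) := by
    intro p j hp hp' hj
    have := st0.high.spread j (τ' + p) (by omega) (by omega)
    rw [wt_comm, hr]
    omega
  have hfarM : ∀ s j, s ≤ n → j < τ' → 3 ≤ wt ((M s).k + R j) := fun s j hs hj =>
    st0.bulkAll hs (by omega)
  refine ⟨a + b + 2, dbl a (a + b + 2) EL EU (uu1 r) (uu2 r) (uu3 r),
    ⟨by omega, ?_, hphi, ?_, ?_, ?_, ?_, ?_⟩, by omega⟩
  · refine ⟨fun i hi => st0.high.adj i (by omega), fun i j hij hj =>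
      st0.high.spread i j hij (by omega)⟩
  · rw [dbl_lt (by omega), hEL, ext_lt (by omega)]; rfl
  · rw [dbl_lt (by omega), hEL, ext_lt (by omega)]; rfl
  · rw [dbl_gt (by omega), Nat.sub_self, hEU, ext_lt (by omega)]
    unfold gU
    have e0 : 0 / 4 = 0 := rfl
    rw [e0, Q.x0, Q.t0]
    rfl
  · have e : a + b + 2 - (a + b + 2 - 1) = 1 := by omega
    rw [dbl_gt (by omega), e, hEU, ext_lt (by omega)]
    unfold gU
    have e0 : 1 / 4 = 0 := rfl
    rw [e0, Q.x0, Q.t0]
    rfl
  · intro s hs hs' j hj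
    by_cases h1 : s < a
    · rw [dbl_lt h1, hEL]
      by_cases h2 : s < 3 * m + 1
      · rw [ext_lt h2]
        exact hfar s j hs (by omega) hj
      by_cases h3 : s ≤ 3 * m + 1 + n
      · rw [ext_mid (by omega) h3]
        exact hfarM _ j (by omega) hj
      · rw [ext_gt (by omega)]
        exact hfar _ j (by omega) (by omega) hj
    by_cases h2 : a + 3 ≤ s
    · rw [dbl_gt h2, hEU]
      set i := a + b + 2 - s with hi
      by_cases h3 : i < 4 * m + 1
      · rw [ext_lt h3]
        exact hfar (pos i) j (by unfold pos; omega) (by unfold pos; omega) hj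
      by_cases h4 : i ≤ 4 * m + 1 + n
      · rw [ext_mid (by omega) h4]
        exact hfarM _ j (by omega) hj
      · rw [ext_gt (by omega)]
        exact hfar (pos (2 * (4 * m + 1) + n - i)) j (by unfold pos; omega)
          (by unfold pos; omega) hj
    · have h3 := hfar 2 j le_rfl (by omega) hj
      rcases (by omega : s = a ∨ s = a + 1 ∨ s = a + 2) with e | e | e
      · rw [e, dbl_0]; exact h3
      · rw [e, dbl_1]; exact h3
      · rw [e, dbl_2]; exact h3

end Pool.Agent.Bootstrap
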