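import Pool.Agent.Bootstrap.Double

/-!
# The doubling step: main theorem
-/

namespace Pool.Agent.Bootstrap

open WtGroup

variable {X K L : Type} [AddCommGroup X] [WtGroup X] [AddCommGroup K] [WtGroup K]
  [AddCommGroup L] [WtGroup L]

theorem State.bulkAll {S : Set X} {n τ : ℕ} {M : ℕ → Vx X K L} {R : ℕ → K}
    (st : State S n τ M R) {s j : ℕ} (hs : s ≤ n) (hj : j + 3 ≤ τ) :
    3 ≤ wt ((M s).k + R j) := by
  have hn := st.hn
  have h0 : 3 ≤ wt (R τ + R j) := by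
    have := st.high.spread j τ (by omega) (by omega)
    rw [wt_comm]
    omega
  have h1 : 3 ≤ wt (R (τ + 1) + R j) := by
    have := st.high.spread j (τ + 1) (by omega) (by omega)
    rw [wt_comm]
    omega
  by_cases e0 : s = 0
  · subst e0; rw [st.start0]; exact h0
  by_cases e1 : s = 1
  · subst e1; rw [st.start1]; exact h1
  by_cases e2 : s = n
  · subst e2; rw [st.end0]; exact h0
  by_cases e3 : s = n - 1
  · subst e3; rw [st.end1]; exact h1
  exact st.bulk s (by omega) (by omega) j (by omega)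

section tracks

variable {S : Set X} {h : X} {m : ℕ} {sx : ℕ → X} {st : ℕ → Tri} {r : ℕ → K}

theorem phi_gL (hS : Resting S) {w : ℕ}
    (Radj : ∀ i ≤ w, wt (r i + r (i + 1)) = 1)
    (Rsp : ∀ i j, i ≤ j → j ≤ w + 1 → min (j - i) 3 ≤ wt (r i + r j))
    {i j : ℕ} (hij : i ≤ j) (hj : j ≤ w + 1) : Phi S (j - i) (gL (X := X) (L := L) r i) (gL r j) := by
  have h1 := Rsp i j hij hj
  refine ⟨?_, ?_, ?_, ?_⟩
  · rw [dd_gL_gL, wt_zero]; omega
  · intro h2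
    have h3 : j = i + 1 := by omega
    rw [dd_gL_gL, wt_zero, h3, Radj i (by omega)]
  · intro a ha
    have := hS.wt3 a ha
    rw [dd_gL_gL]; omega
  · intro a ha b hb hab
    have := hS.wt2 a ha b hb hab
    rw [dd_gL_gL]; omega

theorem phi_gcL (hS : Resting S) {w : ℕ}
    (Radj : ∀ i ≤ w, wt (r i + r (i + 1)) = 1)
    (Rsp : ∀ i j, i ≤ j → j ≤ w + 1 → min (j - i) 3 ≤ wt (r i + r j))
    {i j : ℕ} (hij : i ≤ j) (hj : j ≤ w + 1) :
    Phi S (j - i) (gcL (X := X) (L := L) r j) (gcL r i) := by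
  apply Phi.symm
  have h1 := Rsp i j hij hj
  refine ⟨?_, ?_, ?_, ?_⟩
  · rw [dd_gcL_gcL, wt_zero]; omega
  · intro h2
    have h3 : j = i + 1 := by omega
    rw [dd_gcL_gcL, wt_zero, h3, Radj i (by omega)]
  · intro a ha
    have := hS.wt3 a ha
    rw [dd_gcL_gcL]; omega
  · intro a ha b hb hab
    have := hS.wt2 a ha b hb hab
    rw [dd_gcL_gcL]; omega

theorem phi_gU (hS : Resting S) (Q : SoftSeq S h m sx st)
    (Radj : ∀ i ≤ 3 * m + 1, wt (r i + r (i + 1)) = 1)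
    (Rsp : ∀ i j, i ≤ j → j ≤ 3 * m + 2 → min (j - i) 3 ≤ wt (r i + r j))
    {i j : ℕ} (hij : i ≤ j) (hj : j ≤ 4 * m + 2) :
    Phi S (j - i) (gU (L := L) sx st r i) (gU sx st r j) := by
  obtain ⟨h1, h2, h3, h4⟩ := track_pair hS Q Radj Rsp hij hj
  refine ⟨?_, ?_, ?_, ?_⟩
  · rw [dd_gU_gU]; exact h1
  · rw [dd_gU_gU]; exact h2
  · intro a ha; rw [dd_gU_gU]; exact h3 a ha
  · intro a ha b hb hab; rw [dd_gU_gU]; exact h4 a ha b hb hab

theorem phi_gcU (hS : Resting S) (Q : SoftSeq S h m sx st)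
    (Radj : ∀ i ≤ 3 * m + 1, wt (r i + r (i + 1)) = 1)
    (Rsp : ∀ i j, i ≤ j → j ≤ 3 * m + 2 → min (j - i) 3 ≤ wt (r i + r j))
    {i j : ℕ} (hij : i ≤ j) (hj : j ≤ 4 * m + 2) :
    Phi S (j - i) (gcU (L := L) sx st r j) (gcU sx st r i) := by
  apply Phi.symm
  obtain ⟨h1, h2, h3, h4⟩ := track_pair hS Q Radj Rsp hij hj
  refine ⟨?_, ?_, ?_, ?_⟩
  · rw [dd_gcU_gcU]; exact h1
  · rw [dd_gcU_gcU]; exact h2
  · intro a ha; rw [dd_gcU_gcU]; exact h3 a ha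
  · intro a ha b hb hab; rw [dd_gcU_gcU]; exact h4 a ha b hb hab

theorem phi_gL_gU (Q : SoftSeq S h m sx st) {i j : ℕ} (hj : j ≤ 4 * m + 2) :
    Phi S 3 (gL (L := L) r i) (gU sx st r j) := by
  have hj' : j / 4 ≤ m := by omega
  refine ⟨?_, fun h => by omega, ?_, ?_⟩
  · rw [dd_gL_gU, add_zero]
    have := Q.w3 (j / 4) hj'
    omega
  · intro a ha
    rw [dd_gL_gU]
    have := Q.avoid (j / 4) hj' a ha
    omega
  · intro a ha b hb hab
    rw [dd_gL_gU]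
    omega

theorem phi_gcL_gcU (Q : SoftSeq S h m sx st) {i j : ℕ} (hj : j ≤ 4 * m + 2) :
    Phi S 3 (gcL (L := L) r i) (gcU sx st r j) := by
  have hj' : j / 4 ≤ m := by omega
  refine ⟨?_, fun h => by omega, ?_, ?_⟩
  · rw [dd_gcL_gcU, add_zero]
    have := Q.w3 (j / 4) hj'
    omega
  · intro a ha
    rw [dd_gcL_gcU]
    have := Q.avoid (j / 4) hj' a ha
    omega
  · intro a ha b hb hab
    rw [dd_gcL_gcU]
    omega

theorem phi_gcL_uu (hS : Resting S) {w : ℕ}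
    (Rsp : ∀ i j, i ≤ j → j ≤ w + 1 → min (j - i) 3 ≤ wt (r i + r j))
    {p : ℕ} (hp : 2 ≤ p) (hpw : p ≤ w + 1) :
    Phi S (p - 1) (gcL (X := X) (L := L) r p) (uu1 r) ∧
    Phi S p (gcL (X := X) (L := L) r p) (uu2 r) ∧
    Phi S (p + 1) (gcL (X := X) (L := L) r p) (uu3 r) := by
  have h1 := Rsp 2 p hp hpw
  rw [wt_comm] at h1
  refine ⟨⟨?_, ?_, ?_, ?_⟩, ⟨?_, ?_, ?_, ?_⟩, ⟨?_, ?_, ?_, ?_⟩⟩
  · rw [dd_gcL_uu1, wt_zero]; omega
  · intro h2
    have h3 : p = 2 := by omega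
    rw [dd_gcL_uu1, wt_zero, h3, add_self, wt_zero]
  · intro a ha
    have := hS.wt3 a ha
    rw [dd_gcL_uu1]; omega
  · intro a ha b hb hab
    rw [dd_gcL_uu1]; omega
  · rw [dd_gcL_uu2, wt_zero]; omega
  · intro h2; omega
  · intro a ha
    have := hS.wt3 a ha
    rw [dd_gcL_uu2]; omega
  · intro a ha b hb hab
    rw [dd_gcL_uu2]; omega
  · rw [dd_gcL_uu3, wt_zero]; omega
  · intro h2; omega
  · intro a ha
    have := hS.wt3 a ha
    rw [dd_gcL_uu3]; omega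
  · intro a ha b hb hab
    rw [dd_gcL_uu3]; omega

/-- The facts about the beginning of the soft sequence needed near the U-turn. -/
theorem near_uturn (hS : Resting S) (Q : SoftSeq S h m sx st)
    (Rsp : ∀ i j, i ≤ j → j ≤ 3 * m + 2 → min (j - i) 3 ≤ wt (r i + r j))
    {p : ℕ} (hp : 2 ≤ p) (hpm : p ≤ 4 * m + 2) :
    (min (p - 1) 3 ≤ wt (sx (p / 4)) + wt (tAB + st (p / 4)) + wt (r 2 + r (pos p))) ∧
    (min p 3 ≤ wt (sx (p / 4)) + wt (tA + st (p / 4)) + wt (r 2 + r (pos p))) ∧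
    (p = 2 → wt (sx (p / 4)) + wt (tAB + st (p / 4)) + wt (r 2 + r (pos p)) = 1) ∧
    (∀ a ∈ S, 2 ≤ wt (sx (p / 4) + a) + wt (r 2 + r (pos p))) ∧
    (∀ a ∈ S, ∀ b ∈ S, a ≠ b → 1 ≤ wt (sx (p / 4) + (a + b)) + wt (r 2 + r (pos p))) := by
  have h1 := Rsp 2 (pos p) (by unfold pos; omega) (by unfold pos; omega)
  have hm := Q.hm
  by_cases hp4 : p < 4
  · have e0 : p / 4 = 0 := by omega
    have e1 : pos p = p := by unfold pos; omega
    rw [e0, e1, Q.x0, Q.t0, wt_zero, add_comm tAB, add_comm tA, wt_tT_tAB, wt_tT_tA]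
    rw [e1] at h1
    refine ⟨by omega, by omega, ?_, ?_, ?_⟩
    · rintro rfl
      rw [add_self, wt_zero]
    · intro a ha
      have := hS.wt3 a ha
      rw [zero_add]; omega
    · intro a ha b hb hab
      have := hS.wt2 a ha b hb hab
      rw [zero_add]; omega
  · by_cases hp8 : p < 8
    · have e0 : p / 4 = 1 := by omega
      have e1 : pos p = p - 1 := by unfold pos; omega
      have hs := Q.step 0 (by omega)
      rw [Q.x0, Q.t0, zero_add, zero_add, Q.t1, add_self, wt_zero, add_zero] at hs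
      rw [e0, e1, Q.t1, add_comm tAB, add_comm tA, wt_tT_tAB, wt_tT_tA, hs]
      rw [e1] at h1
      refine ⟨by omega, by omega, by omega, ?_, ?_⟩
      · intro a ha
        have h2 := hS.wt3 a ha
        have h3 := wt_le_add (sx 1) a
        omega
      · intro a ha b hb hab
        have h2 := hS.wt2 a ha b hb hab
        have h3 := wt_le_add (sx 1) (a + b)
        omega
    · have h2 : 3 ≤ wt (r 2 + r (pos p)) := by unfold pos at h1 ⊢; omega
      refine ⟨by omega, by omega, by omega, fun a _ => by omega, fun a _ b _ _ => by omega⟩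

theorem phi_uu_gcU (hS : Resting S) (Q : SoftSeq S h m sx st)
    (Rsp : ∀ i j, i ≤ j → j ≤ 3 * m + 2 → min (j - i) 3 ≤ wt (r i + r j))
    {p : ℕ} (hp : 2 ≤ p) (hpm : p ≤ 4 * m + 2) :
    Phi S (p + 1) (uu1 r) (gcU (L := L) sx st r p) ∧
    Phi S p (uu2 r) (gcU (L := L) sx st r p) ∧
    Phi S (p - 1) (uu3 r) (gcU (L := L) sx st r p) := by
  obtain ⟨h1, h2, h3, h4, h5⟩ := near_uturn hS Q Rsp hp hpm
  refine ⟨⟨?_, ?_, ?_, ?_⟩, ⟨?_, ?_, ?_, ?_⟩, ⟨?_, ?_, ?_, ?_⟩⟩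
  · rw [dd_uu1_gcU, add_zero]; omega
  · intro h2; omega
  · intro a ha
    have := h4 a ha
    rw [dd_uu1_gcU]; omega
  · intro a ha b hb hab
    rw [dd_uu1_gcU]; omega
  · rw [dd_uu2_gcU, add_zero]; omega
  · intro h2; omega
  · intro a ha
    have := h4 a ha
    rw [dd_uu2_gcU]; omega
  · intro a ha b hb hab
    have := h5 a ha b hb hab
    rw [dd_uu2_gcU]; omega
  · rw [dd_uu3_gcU, add_zero]; omega
  · intro h2
    rw [dd_uu3_gcU, add_zero]
    exact h3 (by omega)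
  · intro a ha
    have := h4 a ha
    rw [dd_uu3_gcU]; omega
  · intro a ha b hb hab
    have := h5 a ha b hb hab
    rw [dd_uu3_gcU]; omega

theorem phi_uu_uu (hS : Resting S) (r : ℕ → K) :
    Phi S 0 (uu1 (X := X) (L := L) r) (uu1 r) ∧ Phi S 0 (uu2 (X := X) (L := L) r) (uu2 r) ∧
    Phi S 0 (uu3 (X := X) (L := L) r) (uu3 r) ∧ Phi S 1 (uu1 (X := X) (L := L) r) (uu2 r) ∧
    Phi S 2 (uu1 (X := X) (L := L) r) (uu3 r) ∧ Phi S 1 (uu2 (X := X) (L := L) r) (uu3 r) := by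
  have H3 := hS.wt3
  have H2 := hS.wt2
  refine ⟨⟨?_, ?_, ?_, ?_⟩, ⟨?_, ?_, ?_, ?_⟩, ⟨?_, ?_, ?_, ?_⟩, ⟨?_, ?_, ?_, ?_⟩,
    ⟨?_, ?_, ?_, ?_⟩, ⟨?_, ?_, ?_, ?_⟩⟩
  · rw [dd_uu_self1]; omega
  · omega
  · intro a ha; rw [dd_uu_self1]; have := H3 a ha; omega
  · intro a ha b hb hab; rw [dd_uu_self1]; have := H2 a ha b hb hab; omega
  · rw [dd_uu_self2]; omega
  · omega
  · intro a ha; rw [dd_uu_self2]; have := H3 a ha; omega
  · intro a ha b hb hab; rw [dd_uu_self2]; have := H2 a ha b hb hab; omega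
  · rw [dd_uu_self3]; omega
  · omega
  · intro a ha; rw [dd_uu_self3]; have := H3 a ha; omega
  · intro a ha b hb hab; rw [dd_uu_self3]; have := H2 a ha b hb hab; omega
  · rw [dd_uu12, wt_zero]; omega
  · rw [dd_uu12, wt_zero]; omega
  · intro a ha; rw [dd_uu12]; have := H3 a ha; omega
  · intro a ha b hb hab; rw [dd_uu12]; omega
  · rw [dd_uu13, wt_zero]; omega
  · omega
  · intro a ha; rw [dd_uu13]; have := H3 a ha; omega
  · intro a ha b hb hab; rw [dd_uu13]; omega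
  · rw [dd_uu23, wt_zero]; omega
  · rw [dd_uu23, wt_zero]; omega
  · intro a ha; rw [dd_uu23]; have := H3 a ha; omega
  · intro a ha b hb hab; rw [dd_uu23]; omega

end tracks

end Pool.Agent.Bootstrap
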