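import Pool.Agent.Bootstrap.DoubleMain

/-!
# Extending the highway, the base state and the big step
-/

namespace Pool.Agent.Bootstrap

open WtGroup

variable {X K L : Type} [AddCommGroup X] [WtGroup X] [AddCommGroup K] [WtGroup K]
  [AddCommGroup L] [WtGroup L]

/-- the extended highway -/
def extHigh (τ : ℕ) (R : ℕ → K) (l1 l2 l3 : L) (j : ℕ) : K × L :=
  if j < τ then (R (τ - 1 - j), l3) else if j = τ then (R 0, l2) else
    if j = τ + 1 then (R 0, l1) else (R (j - τ - 2), 0)

section
variable {τ : ℕ} {R : ℕ → K} {l1 l2 l3 : L}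

theorem extHigh_lt {j : ℕ} (h : j < τ) : extHigh τ R l1 l2 l3 j = (R (τ - 1 - j), l3) := by
  unfold extHigh; rw [if_pos h]
theorem extHigh_0 : extHigh τ R l1 l2 l3 τ = (R 0, l2) := by
  unfold extHigh; rw [if_neg (by omega), if_pos rfl]
theorem extHigh_1 : extHigh τ R l1 l2 l3 (τ + 1) = (R 0, l1) := by
  unfold extHigh; rw [if_neg (by omega), if_neg (by omega), if_pos rfl]
theorem extHigh_gt {j : ℕ} (h : τ + 2 ≤ j) : extHigh τ R l1 l2 l3 j = (R (j - τ - 2), 0) := by
  unfold extHigh; rw [if_neg (by omega), if_neg (by omega), if_neg (by omega)]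

theorem Highway.extend (hR : Highway τ R) (h1 : wt l1 = 1) (h2 : wt l2 = 2) (h3 : wt l3 = 3)
    (h12 : wt (l1 + l2) = 1) (h23 : wt (l2 + l3) = 1) (h13 : wt (l1 + l3) = 2) :
    Highway (2 * τ + 2) (extHigh τ R l1 l2 l3) := by
  have h21 : wt (l2 + l1) = 1 := by rw [wt_comm]; exact h12
  have h32 : wt (l3 + l2) = 1 := by rw [wt_comm]; exact h23
  have h31 : wt (l3 + l1) = 2 := by rw [wt_comm]; exact h13
  constructor
  · intro i hi
    by_cases e1 : i + 1 < τ
    · rw [extHigh_lt (by omega), extHigh_lt e1]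
      simp only [wt_prod, Prod.mk_add_mk, add_self, wt_zero, add_zero]
      have := hR.adj (τ - 1 - (i + 1)) (by omega)
      have e : τ - 1 - (i + 1) + 1 = τ - 1 - i := by omega
      rw [e] at this
      rw [wt_comm]
      exact this
    by_cases e2 : i + 1 = τ
    · rw [extHigh_lt (by omega), e2, extHigh_0]
      have e : τ - 1 - i = 0 := by omega
      simp only [wt_prod, Prod.mk_add_mk, e, add_self, wt_zero, zero_add, h32]
    by_cases e3 : i = τ
    · rw [e3, extHigh_0, extHigh_1]
      simp only [wt_prod, Prod.mk_add_mk, add_self, wt_zero, zero_add, h21]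
    by_cases e4 : i = τ + 1
    · rw [e4, extHigh_1, extHigh_gt (by omega)]
      have e : τ + 1 + 1 - τ - 2 = 0 := by omega
      simp only [wt_prod, Prod.mk_add_mk, e, add_self, wt_zero, zero_add, add_zero, h1]
    · rw [extHigh_gt (by omega), extHigh_gt (by omega)]
      simp only [wt_prod, Prod.mk_add_mk, add_self, wt_zero, add_zero]
      have := hR.adj (i - τ - 2) (by omega)
      have e : i + 1 - τ - 2 = i - τ - 2 + 1 := by omega
      rw [e]
      exact this
  · intro i j hij hj
    by_cases ej : τ + 2 ≤ j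
    · rw [extHigh_gt ej]
      by_cases ei : τ + 2 ≤ i
      · rw [extHigh_gt ei]
        simp only [wt_prod, Prod.mk_add_mk, add_self, wt_zero, add_zero]
        have := hR.spread (i - τ - 2) (j - τ - 2) (by omega) (by omega)
        omega
      by_cases ei1 : i = τ + 1
      · rw [ei1, extHigh_1]
        simp only [wt_prod, Prod.mk_add_mk, add_zero, h1]
        have := hR.spread 0 (j - τ - 2) (by omega) (by omega)
        omega
      by_cases ei0 : i = τ
      · rw [ei0, extHigh_0]
        simp only [wt_prod, Prod.mk_add_mk, add_zero, h2]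
        have := hR.spread 0 (j - τ - 2) (by omega) (by omega)
        omega
      · rw [extHigh_lt (by omega)]
        simp only [wt_prod, Prod.mk_add_mk, add_zero, h3]
        omega
    by_cases ej1 : j = τ + 1
    · rw [ej1, extHigh_1]
      by_cases ei1 : i = τ + 1
      · rw [ei1]; omega
      by_cases ei0 : i = τ
      · rw [ei0, extHigh_0]
        simp only [wt_prod, Prod.mk_add_mk, add_self, wt_zero, zero_add, h21]
        omega
      · rw [extHigh_lt (by omega)]
        simp only [wt_prod, Prod.mk_add_mk, h31]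
        have := hR.spread 0 (τ - 1 - i) (by omega) (by omega)
        rw [wt_comm] at this
        omega
    by_cases ej0 : j = τ
    · rw [ej0, extHigh_0]
      by_cases ei0 : i = τ
      · rw [ei0]; omega
      · rw [extHigh_lt (by omega)]
        simp only [wt_prod, Prod.mk_add_mk, h32]
        have := hR.spread 0 (τ - 1 - i) (by omega) (by omega)
        rw [wt_comm] at this
        omega
    · rw [extHigh_lt (by omega), extHigh_lt (by omega)]
      simp only [wt_prod, Prod.mk_add_mk, add_self, wt_zero, add_zero]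
      have := hR.spread (τ - 1 - j) (τ - 1 - i) (by omega) (by omega)
      rw [wt_comm] at this
      omega

end

/-- move the layering part into the highway part -/
def lft (u : Vx X K L) : Vx X (K × L) Unit := ⟨u.x, u.t, u.t', (u.k, u.l), (), u.e⟩

theorem dd_lft (a : X) (u v : Vx X K L) : dd a (lft u) (lft v) = dd a u v := by
  unfold dd lft
  have e : wt (() + ()) = 0 := rfl
  simp only [wt_prod, Prod.mk_add_mk, e]
  omega

theorem phi_lft {S : Set X} {d : ℕ} {u v : Vx X K L} (h : Phi S d u v) :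
    Phi S d (lft u) (lft v) := by
  refine ⟨?_, ?_, ?_, ?_⟩
  · rw [dd_lft]; exact h.spread
  · rw [dd_lft]; exact h.adj
  · intro a ha; rw [dd_lft]; exact h.inv1 a ha
  · intro a ha b hb hab; rw [dd_lft]; exact h.inv2 a ha b hb hab

theorem State.extend {S : Set X} {n τ : ℕ} {M : ℕ → Vx X K L} {R : ℕ → K}
    (st : State S n τ M R) (hτ : 1 ≤ τ) {l1 l2 l3 : L}
    (h1 : wt l1 = 1) (h2 : wt l2 = 2) (h3 : wt l3 = 3)
    (h12 : wt (l1 + l2) = 1) (h23 : wt (l2 + l3) = 1) (h13 : wt (l1 + l3) = 2) :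
    State S n (2 * τ + 2) (fun i => lft (M i)) (extHigh τ R l1 l2 l3) := by
  have hn := st.hn
  have e0 : 2 * τ + 2 - τ - 2 = τ := by omega
  have e1 : 2 * τ + 2 + 1 - τ - 2 = τ + 1 := by omega
  refine ⟨hn, st.high.extend h1 h2 h3 h12 h23 h13, fun i j hij hj => phi_lft (st.phi i j hij hj),
    ?_, ?_, ?_, ?_, ?_⟩
  · show lft (M 0) = _
    rw [st.start0, extHigh_gt (by omega), e0]; rfl
  · show lft (M 1) = _
    rw [st.start1, extHigh_gt (by omega), e1]; rfl
  · show lft (M n) = _
    rw [st.end0, extHigh_gt (by omega), e0]; rfl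
  · show lft (M (n - 1)) = _
    rw [st.end1, extHigh_gt (by omega), e1]; rfl
  · intro s hs hs' j hj
    have key : ∀ i < τ, ∀ l : L, 3 ≤ wt ((lft (M s)).k + (R i, l)) := by
      intro i hi l
      have := st.bulk s hs hs' i hi
      unfold lft
      simp only [wt_prod, Prod.mk_add_mk]
      omega
    by_cases c1 : τ + 2 ≤ j
    · rw [extHigh_gt c1]; exact key _ (by omega) _
    by_cases c2 : j = τ + 1
    · rw [c2, extHigh_1]; exact key _ (by omega) _
    by_cases c3 : j = τ
    · rw [c3, extHigh_0]; exact key _ (by omega) _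
    · rw [extHigh_lt (by omega)]; exact key _ (by omega) _

/-- Three recycled layering coordinates. -/
abbrev L3 := ((Unit × ZMod 2) × ZMod 2) × ZMod 2

/-- The big step: three doublings followed by an extension of the highway. -/
theorem State.bigStep {S0 S1 S2 S3 : Set X} {n τ τ3 : ℕ} {M : ℕ → Vx X K Unit} {R : ℕ → K}
    (st : State S0 n τ M R) (hS : Resting S0)
    (h10 : S1 ⊆ S0) (h21 : S2 ⊆ S1) (h32 : S3 ⊆ S2)
    {a0 a1 a2 : X} (m0 : a0 ∈ S0) (m0' : a0 ∉ S1) (m1 : a1 ∈ S1) (m1' : a1 ∉ S2)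
    (m2 : a2 ∈ S2) (m2' : a2 ∉ S3) (p0 : HasPath a0) (p1 : HasPath a1) (p2 : HasPath a2)
    (hτ : τ = τ3 + (3 * (wt a2 + 3) + 1) + (3 * (wt a1 + 3) + 1) + (3 * (wt a0 + 3) + 1))
    (h3 : 1 ≤ τ3) :
    ∃ n', ∃ M' : ℕ → Vx X (K × L3) Unit, ∃ R' : ℕ → K × L3,
      State S3 n' (2 * τ3 + 2) M' R' ∧ 8 * (n + 1) ≤ n' + 1 := by
  obtain ⟨n1, M1, st1, e1⟩ := st.double hS h10 m0 m0' p0 hτ
  obtain ⟨n2, M2, st2, e2⟩ := st1.double (hS.mono h10) h21 m1 m1' p1 rfl
  obtain ⟨n3, M3, st3, e3⟩ := st2.double ((hS.mono h10).mono h21) h32 m2 m2' p2 rfl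
  refine ⟨n3, _, _, st3.extend h3 (l1 := ((((), 1), 0), 0)) (l2 := ((((), 1), 1), 0))
    (l3 := ((((), 1), 1), 1)) ?_ ?_ ?_ ?_ ?_ ?_, by omega⟩
  all_goals decide

end Pool.Agent.Bootstrap
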