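import Pool.Agent.Bootstrap.Basic

/-! The upper bound `(T - 1)(d + 1 - r) ≤ (r + 2)|V|` for graphs of minimum degree `≥ d`. -/

namespace Pool.Agent.Bootstrap

variable {V : Type*} {G : SimpleGraph V} {r : ℕ} {A : Set V}

theorem exists_new [Finite V] {t : ℕ} (h1 : 1 ≤ t) (h2 : t ≤ time G r A) :
    ∃ v, v ∈ infected G r A t ∧ v ∉ infected G r A (t - 1) := by
  by_contra hcon
  push Not at hcon
  have h3 : infected G r A ((t - 1) + 1) = infected G r A (t - 1) := by
    apply Set.Subset.antisymm _ (infected_succ_subset _)
    rw [Nat.sub_add_cancel h1]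
    exact hcon
  have h4 := closure_eq_of_stable h3
  have h5 : time G r A ≤ t - 1 :=
    Nat.sInf_le (s := {t | infected G r A t = closure G r A}) h4.symm
  omega

theorem time_bound [Fintype V] {d : ℕ} (hd : ∀ v, d ≤ (G.neighborSet v).ncard)
    (A : Set V) :
    (time G r A - 1) * (d + 1 - r) ≤ (r + 2) * Fintype.card V := by
  classical
  rcases Nat.lt_or_ge (time G r A) 2 with h | hT2
  · have : time G r A - 1 = 0 := by omega
    rw [this, zero_mul]
    exact Nat.zero_le _
  set T := time G r A with hT
  have hne : Nonempty V := by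
    obtain ⟨v, -⟩ := exists_new (G := G) (r := r) (A := A) (t := 1) le_rfl (by omega)
    exact ⟨v⟩
  have hch : ∀ t, t ∈ Finset.Icc 2 T → ∃ v : V,
      (v ∈ infected G r A t ∧ v ∉ infected G r A (t - 1)) := by
    intro t ht
    rw [Finset.mem_Icc] at ht
    exact exists_new (by omega) ht.2
  choose! v hv using hch
  -- the relation
  let R : ℕ → V → Prop := fun t w => G.Adj (v t) w ∧ w ∉ infected G r A (t - 2)
  have key := Finset.sum_card_bipartiteAbove_eq_sum_card_bipartiteBelow (s := Finset.Icc 2 T)
    (t := (Finset.univ : Finset V)) R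
  -- lower bound for each time
  have hlow : ∀ t ∈ Finset.Icc 2 T,
      d + 1 - r ≤ (Finset.bipartiteAbove R (Finset.univ : Finset V) t).card := by
    intro t ht
    obtain ⟨-, h2⟩ := hv t ht
    rw [Finset.mem_Icc] at ht
    have h3 : (G.neighborSet (v t) ∩ infected G r A (t - 2)).ncard < r := by
      by_contra hcon
      push Not at hcon
      apply h2
      have : t - 1 = (t - 2) + 1 := by omega
      rw [this]
      exact Or.inr hcon
    have h4 : (G.neighborSet (v t)).ncard =
        (G.neighborSet (v t) ∩ infected G r A (t - 2)).ncard +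
        (G.neighborSet (v t) \ infected G r A (t - 2)).ncard := by
      exact (Set.ncard_inter_add_ncard_sdiff_eq_ncard _ _ (Set.toFinite _)).symm
    have h5 : (G.neighborSet (v t) \ infected G r A (t - 2)).ncard =
        (Finset.bipartiteAbove R (Finset.univ : Finset V) t).card := by
      rw [← Set.ncard_coe_finset]
      congr 1
      ext w
      simp [Finset.bipartiteAbove, R]
    have := hd (v t)
    omega
  -- upper bound for each vertex
  have hupp : ∀ w ∈ (Finset.univ : Finset V),
      (Finset.bipartiteBelow R (Finset.Icc 2 T) w).card ≤ r + 2 := by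
    intro w _
    by_contra hcon
    push Not at hcon
    set S := Finset.bipartiteBelow R (Finset.Icc 2 T) w with hS
    have hSne : S.Nonempty := Finset.card_pos.1 (by omega)
    set m := S.max' hSne with hm
    have hmS : m ∈ S := Finset.max'_mem _ _
    set S' := S.filter (fun t => t + 3 ≤ m) with hS'
    have hcard : r ≤ S'.card := by
      have h1 : S ⊆ S' ∪ Finset.Icc (m - 2) m := by
        intro t ht
        rw [Finset.mem_union, hS', Finset.mem_filter, Finset.mem_Icc]
        have : t ≤ m := Finset.le_max' _ _ ht
        by_cases h : t + 3 ≤ m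
        · exact Or.inl ⟨ht, h⟩
        · right; omega
      have h2 := (Finset.card_le_card h1).trans (Finset.card_union_le _ _)
      have h3 : (Finset.Icc (m - 2) m).card ≤ 3 := by
        rw [Nat.card_Icc]; omega
      omega
    have hmem : ∀ t ∈ S, t ∈ Finset.Icc 2 T ∧ G.Adj (v t) w ∧ w ∉ infected G r A (t - 2) := by
      intro t ht
      rw [hS, Finset.mem_bipartiteBelow] at ht
      exact ht
    have hinj : Set.InjOn v (S' : Set ℕ) := by
      intro s hs t ht hst
      have hs' := hmem s (Finset.mem_of_mem_filter _ hs)
      have ht' := hmem t (Finset.mem_of_mem_filter _ ht)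
      have h1 := hv s hs'.1
      have h2 := hv t ht'.1
      by_contra hne
      rcases Nat.lt_or_gt_of_ne hne with h | h
      · apply h2.2
        rw [← hst]
        exact infected_mono (by omega) h1.1
      · apply h1.2
        rw [hst]
        exact infected_mono (by omega) h2.1
    obtain ⟨hm1, -, hm3⟩ := hmem m hmS
    rw [Finset.mem_Icc] at hm1
    have hbig : r ≤ (G.neighborSet w ∩ infected G r A (m - 3)).ncard := by
      have h1 : ((S'.image v : Finset V) : Set V) ⊆
          G.neighborSet w ∩ infected G r A (m - 3) := by
        intro u hu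
        rw [Finset.mem_coe, Finset.mem_image] at hu
        obtain ⟨t, ht, rfl⟩ := hu
        have ht2 := Finset.mem_filter.1 ht
        obtain ⟨h4, h5, h6⟩ := hmem t ht2.1
        refine ⟨h5.symm, infected_mono (by omega) (hv t h4).1⟩
      have h2 := Set.ncard_le_ncard h1 (Set.toFinite _)
      rw [Set.ncard_coe_finset, Finset.card_image_of_injOn hinj] at h2
      omega
    by_cases hS'e : S' = ∅
    · -- then r = 0
      rw [hS'e] at hcard
      have hr0 : r = 0 := by simpa using hcard
      -- with threshold 0 everything is infected after one round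
      have hall : ∀ u, u ∈ infected G r A 1 := fun u => Or.inr (show r ≤ _ by rw [hr0]; exact Nat.zero_le _)
      have h2T : T ∈ Finset.Icc 2 T := by rw [Finset.mem_Icc]; omega
      exact (hv T h2T).2 (infected_mono (by omega) (hall _))
    · obtain ⟨t, ht⟩ := Finset.nonempty_iff_ne_empty.2 hS'e
      have ht2 := Finset.mem_filter.1 ht
      have ht3 := (hmem t ht2.1).1
      rw [Finset.mem_Icc] at ht3
      apply hm3
      have : m - 2 = (m - 3) + 1 := by omega
      rw [this]
      exact Or.inr hbig
  have h1 := Finset.card_nsmul_le_sum _ _ _ hlow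
  have h2 := Finset.sum_le_card_nsmul _ _ _ hupp
  rw [key] at h1
  have h3 := h1.trans h2
  simp only [smul_eq_mul, Nat.card_Icc, Finset.card_univ] at h3
  calc (T - 1) * (d + 1 - r) = (T + 1 - 2) * (d + 1 - r) := by
        congr 1
    _ ≤ _ := h3
    _ = (r + 2) * Fintype.card V := by ring

end Pool.Agent.Bootstrap
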