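import Pool.Agent.Bootstrap.SnakeExists
import Pool.Agent.Bootstrap.Upper

/-!
# `M(Q_n, r) = Θ(2^n / n)`
-/

namespace Pool.Agent.Bootstrap

open SimpleGraph

theorem maxTime_pos {V : Type*} [Finite V] {G : SimpleGraph V} {r : ℕ} {v : V}
    (hv : r ≤ (G.neighborSet v).ncard) : 1 ≤ maxTime G r := by
  have h1 : v ∈ infected G r ({v}ᶜ : Set V) 1 := by
    right
    show r ≤ (G.neighborSet v ∩ ({v}ᶜ : Set V)).ncard
    have : G.neighborSet v ∩ ({v}ᶜ : Set V) = G.neighborSet v := by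
      apply Set.inter_eq_left.2
      intro u hu
      rw [Set.mem_compl_iff, Set.mem_singleton_iff]
      rintro rfl
      exact G.loopless.irrefl _ hu
    rw [this]
    exact hv
  have h2 : Percolates G r ({v}ᶜ : Set V) := by
    apply Set.eq_univ_of_forall
    intro u
    by_cases hu : u = v
    · subst hu
      exact infected_subset_closure 1 h1
    · exact subset_closure hu
  have h3 : v ∉ infected G r ({v}ᶜ : Set V) 0 := fun h => h rfl
  have h4 := lt_time (infected_subset_closure 1 h1) h3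
  have h5 := le_maxTime h2
  omega

/-- The lower bound: `2^n ≤ 2^(r+224) · n · M(Q_n, r)`. -/
theorem lower_bound {r n : ℕ} (hr : 3 ≤ r) (hn : r ≤ n) :
    2 ^ n ≤ 2 ^ (r + 224) * n * maxTime (hypercube n 2) r := by
  have hM : 1 ≤ maxTime (hypercube n 2) r := by
    apply maxTime_pos (v := 0)
    rw [degree_hypercube]
    omega
  obtain ⟨s, rfl⟩ : ∃ s, r = 3 + s := ⟨r - 3, by omega⟩
  set m := Nat.clog 2 n with hm
  have hm1 : n ≤ 2 ^ m := Nat.le_pow_clog (by norm_num) n
  have hm2 : 2 ^ m ≤ 2 * n := by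
    have h1 := Nat.pow_pred_clog_lt_self (b := 2) (by norm_num) (x := n) (by omega)
    have h2 : 0 < m := Nat.clog_pos (by norm_num) (by omega)
    rw [← hm] at h1
    obtain ⟨k, hk⟩ : ∃ k, m = k + 1 := ⟨m - 1, by omega⟩
    rw [hk] at h1 ⊢
    simp only [Nat.pred_eq_sub_one, Nat.add_sub_cancel] at h1
    rw [pow_succ]
    omega
  by_cases hcase : m + 223 + s ≤ n
  · -- use the snake
    obtain ⟨J, ρ, hρ, hJ⟩ : ∃ J ρ, ρ < 3 ∧ n = m + 223 + s + (3 * J + ρ) :=
      ⟨(n - (m + 223 + s)) / 3, (n - (m + 223 + s)) % 3, Nat.mod_lt _ (by norm_num), by omega⟩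
    obtain ⟨P, L, hL, hP⟩ := snake_exists m (206 + ρ) J (by omega) (by omega)
    have h1 := spread_maxTime hP s
    have e : m + (206 + ρ) + 11 + 3 * J + 6 + s = n := by omega
    rw [e] at h1
    have h2 : L ≤ 2 * maxTime (hypercube n 2) (3 + s) := by omega
    have h3 : 2 ^ n = 2 ^ m * 2 ^ (223 + s + ρ) * 8 ^ J := by
      have : (8 : ℕ) = 2 ^ 3 := by norm_num
      rw [this, ← pow_mul, ← pow_add, ← pow_add]
      congr 1
      omega
    have h4 : 2 ^ (223 + s + ρ) ≤ 2 ^ (225 + s) := Nat.pow_le_pow_right (by norm_num) (by omega)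
    calc 2 ^ n = 2 ^ m * 2 ^ (223 + s + ρ) * 8 ^ J := h3
      _ ≤ (2 * n) * 2 ^ (225 + s) * (2 * maxTime (hypercube n 2) (3 + s)) :=
          Nat.mul_le_mul (Nat.mul_le_mul hm2 h4) (hL.trans h2)
      _ = 2 ^ (3 + s + 224) * n * maxTime (hypercube n 2) (3 + s) := by
          have : 3 + s + 224 = (225 + s) + 2 := by omega
          rw [this, pow_add]
          ring
  · -- small dimensions
    have h1 : 2 ^ n ≤ 2 ^ m * 2 ^ (223 + s) := by
      rw [← pow_add]
      exact Nat.pow_le_pow_right (by norm_num) (by omega)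
    calc 2 ^ n ≤ 2 ^ m * 2 ^ (223 + s) := h1
      _ ≤ (2 * n) * 2 ^ (223 + s) := Nat.mul_le_mul_right _ hm2
      _ ≤ 2 ^ (3 + s + 224) * n := by
          have e : 2 ^ (3 + s + 224) = 2 ^ (223 + s) * 16 := by
            rw [show 3 + s + 224 = (223 + s) + 4 by omega, pow_add 2 (223 + s) 4]
            norm_num
          rw [e]
          nlinarith [Nat.zero_le (n * 2 ^ (223 + s))]
      _ = 2 ^ (3 + s + 224) * n * 1 := by rw [mul_one]
      _ ≤ _ := Nat.mul_le_mul_left _ hM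

/-- The upper bound, for all `q ≥ 2`: `M(Q_{n,q}, r) ≤ (r+1)² q^n / n`. -/
theorem upper_bound {r n q : ℕ} (hr : 1 ≤ r) (hq : 2 ≤ q) (hn : r ≤ n) :
    (maxTime (hypercube n q) r : ℝ) ≤ (r + 1) ^ 2 * ((q : ℝ) ^ n / n) := by
  have hn0 : (0 : ℝ) < n := by
    have : 0 < n := by omega
    exact_mod_cast this
  obtain ⟨⟨A, -, hA⟩, -⟩ := isGreatest_maxTime (hypercube n q) r
  rw [← hA]
  have h1 := time_bound (G := hypercube n q) (r := r) (d := n)
    (fun v => by rw [degree_hypercube]; exact Nat.le_mul_of_pos_right n (by omega)) A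
  rw [Fintype.card_fun, Fintype.card_fin, Fintype.card_fin] at h1
  set T := time (hypercube n q) r A with hT
  have h2 : ((T - 1 : ℕ) : ℝ) * ((n + 1 - r : ℕ) : ℝ) ≤ (r + 2) * (q : ℝ) ^ n := by
    exact_mod_cast h1
  have h3 : (T : ℝ) - 1 ≤ ((T - 1 : ℕ) : ℝ) := by
    rcases Nat.eq_zero_or_pos T with h | h
    · rw [h]; norm_num
    · rw [Nat.cast_sub h]; norm_num
  have h4 : (n : ℝ) ≤ r * ((n + 1 - r : ℕ) : ℝ) := by
    have : n ≤ r * (n + 1 - r) := by
      obtain ⟨k, rfl⟩ := Nat.exists_eq_add_of_le hn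
      have e : r + k + 1 - r = k + 1 := by omega
      rw [e]
      nlinarith
    exact_mod_cast this
  have h5 : (n : ℝ) ≤ (q : ℝ) ^ n := by
    have h6 : n < q ^ n := Nat.lt_pow_self (by omega)
    exact_mod_cast h6.le
  have hT0 : (0 : ℝ) ≤ ((T - 1 : ℕ) : ℝ) := Nat.cast_nonneg _
  have hr0 : (0 : ℝ) ≤ r := Nat.cast_nonneg _
  rw [← mul_div_assoc, le_div_iff₀ hn0]
  have h6 : ((T - 1 : ℕ) : ℝ) * n ≤ r * ((r + 2) * (q : ℝ) ^ n) := by
    calc ((T - 1 : ℕ) : ℝ) * n ≤ ((T - 1 : ℕ) : ℝ) * (r * ((n + 1 - r : ℕ) : ℝ)) :=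
          mul_le_mul_of_nonneg_left h4 hT0
      _ = r * (((T - 1 : ℕ) : ℝ) * ((n + 1 - r : ℕ) : ℝ)) := by ring
      _ ≤ r * ((r + 2) * (q : ℝ) ^ n) := mul_le_mul_of_nonneg_left h2 hr0
  have h7 : ((T : ℝ) - 1) * n ≤ ((T - 1 : ℕ) : ℝ) * n := mul_le_mul_of_nonneg_right h3 hn0.le
  nlinarith

/-- For `n < r` only the full vertex set percolates. -/
theorem maxTime_small {r n : ℕ} (hn : n < r) : maxTime (hypercube n 2) r = 0 := by
  apply Nat.eq_zero_of_le_zero
  apply maxTime_le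
  intro A hA
  have h1 : infected (hypercube n 2) r A (0 + 1) = infected (hypercube n 2) r A 0 := by
    apply Set.Subset.antisymm _ (infected_succ_subset _)
    rintro v (h | h)
    · exact h
    · exfalso
      have h2 := Set.ncard_le_ncard (Set.inter_subset_left
        (s := (hypercube n 2).neighborSet v) (t := infected (hypercube n 2) r A 0))
        (Set.toFinite _)
      rw [degree_hypercube] at h2
      have h3 : r ≤ ((hypercube n 2).neighborSet v ∩ infected (hypercube n 2) r A 0).ncard := h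
      omega
  have h2 := closure_eq_of_stable h1
  exact Nat.sInf_le (s := {t | infected (hypercube n 2) r A t = closure (hypercube n 2) r A})
    h2.symm

end Pool.Agent.Bootstrap
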