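import Pool.Agent.Bootstrap.Cube

/-!
# The gate lemma

If a vertex `v` of a connected graph `G` gets infected for the first time at time `τ` in some
`3`-neighbour process on `G` (which need not percolate), then `M(G □ Q_4, 3) ≥ τ`.
-/

namespace Pool.Agent.Bootstrap

open SimpleGraph

instance (n q : ℕ) : DecidableRel (hypercube n q).Adj :=
  fun x y => inferInstanceAs (Decidable (hammingDist x y = 1))

/-- The number of neighbours of `z` inside the finite set `S`. -/
def nb {W : Type*} (H : SimpleGraph W) [DecidableRel H.Adj] (S : Finset W) (z : W) : ℕ :=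
  (S.filter (fun z' => H.Adj z z')).card

/-- Add to `S` all vertices with at least `k` neighbours in `S`. -/
def grow {W : Type*} [Fintype W] [DecidableEq W] (H : SimpleGraph W) [DecidableRel H.Adj] (k : ℕ)
    (S : Finset W) : Finset W :=
  S ∪ Finset.univ.filter (fun z => k ≤ nb H S z)

variable {V W : Type*} {G : SimpleGraph V} {H : SimpleGraph W}

theorem closure_closed [Finite V] {r : ℕ} {A : Set V} {v : V}
    (h : r ≤ (G.neighborSet v ∩ closure G r A).ncard) : v ∈ closure G r A := by
  obtain ⟨t, ht⟩ := exists_infected_eq_closure (G := G) (r := r) (A := A)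
  rw [mem_closure]
  refine ⟨t + 1, Or.inr ?_⟩
  show r ≤ (G.neighborSet v ∩ infected G r A t).ncard
  rw [ht]
  exact h

section

variable [Finite V] [Fintype W] [DecidableEq W] [DecidableRel H.Adj]

/-- column rule -/
theorem column_grow {C : Set (V × W)} (hC : ∀ p, 3 ≤ ((G □ H).neighborSet p ∩ C).ncard → p ∈ C)
    (v : V) (S : Finset W) (hS : ∀ z ∈ S, (v, z) ∈ C) : ∀ z ∈ grow H 3 S, (v, z) ∈ C := by
  intro z hz
  rw [grow, Finset.mem_union] at hz
  rcases hz with hz | hz
  · exact hS z hz
  · rw [Finset.mem_filter] at hz
    apply hC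
    rw [ncard_nbr_boxProd]
    have h1 : ((S.filter (fun z' => H.Adj z z') : Finset W) : Set W) ⊆
        H.neighborSet z ∩ {y | (v, y) ∈ C} := by
      intro y hy
      rw [Finset.mem_coe, Finset.mem_filter] at hy
      exact ⟨hy.2, hS y hy.1⟩
    have h2 := Set.ncard_le_ncard h1 (Set.toFinite _)
    rw [Set.ncard_coe_finset] at h2
    have h3 : 3 ≤ nb H S z := hz.2
    unfold nb at h3
    omega

/-- level rule -/
theorem level_grow {C : Set (V × W)} (hC : ∀ p, 3 ≤ ((G □ H).neighborSet p ∩ C).ncard → p ∈ C)
    (hG : G.Preconnected) (v : V) (hv : ∀ z, (v, z) ∈ C)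
    (S : Finset W) (hS : ∀ z ∈ S, ∀ x, (x, z) ∈ C) : ∀ z ∈ grow H 2 S, ∀ x, (x, z) ∈ C := by
  intro z hz x
  rw [grow, Finset.mem_union] at hz
  rcases hz with hz | hz
  · exact hS z hz x
  · rw [Finset.mem_filter] at hz
    have h3 : 2 ≤ nb H S z := hz.2
    unfold nb at h3
    obtain ⟨p⟩ := hG v x
    have key : ∀ {a b : V}, G.Walk a b → (a, z) ∈ C → (b, z) ∈ C := by
      intro a b p
      induction p with
      | nil => exact id
      | @cons a b c hab p ih =>
        intro ha
        apply ih
        apply hC
        rw [ncard_nbr_boxProd]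
        have h1 : ((S.filter (fun z' => H.Adj z z') : Finset W) : Set W) ⊆
            H.neighborSet z ∩ {y | (b, y) ∈ C} := by
          intro y hy
          rw [Finset.mem_coe, Finset.mem_filter] at hy
          exact ⟨hy.2, hS y hy.1 b⟩
        have h2 := Set.ncard_le_ncard h1 (Set.toFinite _)
        rw [Set.ncard_coe_finset] at h2
        have h4 : ({a} : Set V) ⊆ G.neighborSet b ∩ {x | (x, z) ∈ C} := by
          rintro _ rfl
          exact ⟨hab.symm, ha⟩
        have h5 := Set.ncard_le_ncard h4 (Set.toFinite _)
        rw [Set.ncard_singleton] at h5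
        omega
    exact key p (hv z)

/-- The initial set of the gate. -/
def gateSet (v : V) (z0 : W) (F J : Finset W) (I : Set V) : Set (V × W) :=
  {p | p.2 ∈ F ∨ (p.1 = v ∧ p.2 ∈ J) ∨ (p.2 = z0 ∧ p.1 ∈ I)}

theorem gate_before (v : V) (z0 : W) (F J : Finset W) (A : Set V)
    (h00 : z0 ∉ F) (h01 : z0 ∉ J)
    (h0 : ∀ z, H.Adj z0 z → z ∉ F ∧ z ∉ J)
    (h1 : ∀ z, z ∉ F → z ≠ z0 → nb H (insert z0 F) z ≤ 2)
    (h2 : ∀ z, z ∉ F → z ∉ J → z ≠ z0 → nb H (F ∪ J) z ≤ 2)
    (h3 : ∀ z ∈ J, nb H F z ≤ 1) (i : ℕ)
    (hi : ∀ j < i, v ∉ infected G 3 A j) :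
    infected (G □ H) 3 (gateSet v z0 F J A) i = gateSet v z0 F J (infected G 3 A i) := by
  induction i with
  | zero => rfl
  | succ i ih =>
    have ih' := ih (fun j hj => hi j (by omega))
    have hvi : v ∉ infected G 3 A i := hi i (by omega)
    ext ⟨x, z⟩
    rw [mem_infected_succ, ih', ncard_nbr_boxProd]
    by_cases hzF : z ∈ F
    · constructor
      · intro _; exact Or.inl hzF
      · intro _; exact Or.inl (Or.inl hzF)
    by_cases hz0 : z = z0
    · subst hz0
      have e1 : {x | (x, z) ∈ gateSet v z F J (infected G 3 A i)} = infected G 3 A i := by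
        ext y
        simp [gateSet, h00, h01]
      have e2 : H.neighborSet z ∩ {y | (x, y) ∈ gateSet v z F J (infected G 3 A i)} = ∅ := by
        rw [Set.eq_empty_iff_forall_notMem]
        rintro y ⟨hy1, hy2⟩
        rcases hy2 with h | h | h
        · exact (h0 y hy1).1 h
        · exact (h0 y hy1).2 h.2
        · have h' : y = z := h.1
          subst h'
          exact H.loopless.irrefl _ hy1
      rw [e1, e2, Set.ncard_empty]
      constructor
      · rintro ((h | h | h) | h)
        · exact absurd h h00
        · exact absurd h.2 h01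
        · exact Or.inr (Or.inr ⟨rfl, Or.inl h.2⟩)
        · exact Or.inr (Or.inr ⟨rfl, Or.inr h⟩)
      · rintro (h | h | h)
        · exact absurd h h00
        · exact absurd h.2 h01
        · rcases h.2 with h | h
          · exact Or.inl (Or.inr (Or.inr ⟨rfl, h⟩))
          · exact Or.inr h
    · -- quiet region
      constructor
      · rintro (h | h)
        · rcases h with h | h | h
          · exact Or.inl h
          · exact Or.inr (Or.inl h)
          · exact absurd h.1 hz0
        · by_cases hxv : x = v ∧ z ∈ J
          · exact Or.inr (Or.inl hxv)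
          exfalso
          -- in-level part
          have a1 : (G.neighborSet x ∩
              {x | (x, z) ∈ gateSet v z0 F J (infected G 3 A i)}).ncard ≤
              if z ∈ J then 1 else 0 := by
            split_ifs with hzJ
            · calc _ ≤ ({v} : Set V).ncard := by
                    apply Set.ncard_le_ncard _ (Set.toFinite _)
                    rintro y ⟨-, hy⟩
                    rcases hy with h | h | h
                    · exact absurd h hzF
                    · exact h.1
                    · exact absurd h.1 hz0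
                _ = 1 := Set.ncard_singleton _
            · rw [Nat.le_zero, Set.ncard_eq_zero (Set.toFinite _),
                Set.eq_empty_iff_forall_notMem]
              rintro y ⟨-, hy⟩
              rcases hy with h | h | h
              · exact absurd h hzF
              · exact absurd h.2 hzJ
              · exact absurd h.1 hz0
          -- column part
          have a2 : ∀ S : Finset W, (∀ y, (x, y) ∈ gateSet v z0 F J (infected G 3 A i) →
              H.Adj z y → y ∈ S) →
              (H.neighborSet z ∩
              {y | (x, y) ∈ gateSet v z0 F J (infected G 3 A i)}).ncard ≤ nb H S z := by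
            intro S hS
            unfold nb
            rw [← Set.ncard_coe_finset]
            apply Set.ncard_le_ncard _ (Set.toFinite _)
            rintro y ⟨hy1, hy2⟩
            rw [Finset.mem_coe, Finset.mem_filter]
            exact ⟨hS y hy2 hy1, hy1⟩
          by_cases hzJ : z ∈ J
          · have hxv' : x ≠ v := fun h => hxv ⟨h, hzJ⟩
            have a3 := a2 F (by
              rintro y (h | h | h) hy
              · exact h
              · exact absurd h.1 hxv'
              · exfalso
                have h' : y = z0 := h.1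
                subst h'
                exact (h0 z hy.symm).2 hzJ)
            have a4 := h3 z hzJ
            rw [if_pos hzJ] at a1
            omega
          · rw [if_neg hzJ] at a1
            by_cases hx : x = v
            · subst hx
              have a3 := a2 (F ∪ J) (by
                rintro y (h | h | h) hy
                · exact Finset.mem_union_left _ h
                · exact Finset.mem_union_right _ h.2
                · exact absurd h.2 hvi)
              have a4 := h2 z hzF hzJ hz0
              omega
            · have a3 := a2 (insert z0 F) (by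
                rintro y (h | h | h) hy
                · exact Finset.mem_insert_of_mem h
                · exact absurd h.1 hx
                · rw [Finset.mem_insert]; exact Or.inl h.1)
              have a4 := h1 z hzF hz0
              omega
      · rintro (h | h | h)
        · exact Or.inl (Or.inl h)
        · exact Or.inl (Or.inr (Or.inl h))
        · exact absurd h.1 hz0

end

/-! ### The concrete gate in `Q_4` -/

/-- The base level. -/
def gz : Fin 4 → Fin 2 := ![0, 0, 0, 0]

/-- The full levels. -/
def gF : Finset (Fin 4 → Fin 2) := {![1, 1, 0, 0], ![1, 1, 1, 0], ![1, 1, 0, 1], ![0, 0, 1, 1]}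

/-- The seed levels. -/
def gJ : Finset (Fin 4 → Fin 2) := {![0, 1, 1, 0], ![1, 0, 0, 1]}

theorem gate_c00 : gz ∉ gF := by decide +kernel
theorem gate_c01 : gz ∉ gJ := by decide +kernel
theorem gate_c0 : ∀ z, (hypercube 4 2).Adj gz z → z ∉ gF ∧ z ∉ gJ := by decide +kernel
theorem gate_c1 : ∀ z, z ∉ gF → z ≠ gz → nb (hypercube 4 2) (insert gz gF) z ≤ 2 := by
  decide +kernel
theorem gate_c2 : ∀ z, z ∉ gF → z ∉ gJ → z ≠ gz → nb (hypercube 4 2) (gF ∪ gJ) z ≤ 2 := by
  decide +kernel
theorem gate_c3 : ∀ z ∈ gJ, nb (hypercube 4 2) gF z ≤ 1 := by decide +kernel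

theorem gate_col : ∀ z, z ∈ (grow (hypercube 4 2) 3)^[6] (insert gz (gF ∪ gJ)) := by
  decide +kernel

theorem gate_lev : ∀ z, z ∈ (grow (hypercube 4 2) 2)^[6] gF := by
  decide +kernel

theorem gate [Finite V] (hG : G.Preconnected) (A : Set V) (v : V) (τ : ℕ)
    (hv : v ∈ infected G 3 A τ) (hv' : ∀ j < τ, v ∉ infected G 3 A j) :
    τ ≤ maxTime (G □ hypercube 4 2) 3 := by
  set A' := gateSet v gz gF gJ A with hA'
  have hb := gate_before (G := G) (H := hypercube 4 2) v gz gF gJ A gate_c00 gate_c01 gate_c0 gate_c1
    gate_c2 gate_c3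
  have hC : ∀ p, 3 ≤ ((G □ hypercube 4 2).neighborSet p ∩
      closure (G □ hypercube 4 2) 3 A').ncard → p ∈ closure (G □ hypercube 4 2) 3 A' :=
    fun p hp => closure_closed hp
  have hv0 : (v, gz) ∈ closure (G □ hypercube 4 2) 3 A' := by
    rw [mem_closure]
    refine ⟨τ, ?_⟩
    rw [hA', hb τ hv']
    exact Or.inr (Or.inr ⟨rfl, hv⟩)
  have hperc : Percolates (G □ hypercube 4 2) 3 A' := by
    have hcol0 : ∀ z ∈ insert gz (gF ∪ gJ), (v, z) ∈ closure (G □ hypercube 4 2) 3 A' := by
      intro z hz
      rw [Finset.mem_insert, Finset.mem_union] at hz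
      rcases hz with rfl | hz | hz
      · exact hv0
      · exact subset_closure (Or.inl hz)
      · exact subset_closure (Or.inr (Or.inl ⟨rfl, hz⟩))
    have hcol : ∀ k, ∀ z ∈ (grow (hypercube 4 2) 3)^[k] (insert gz (gF ∪ gJ)),
        (v, z) ∈ closure (G □ hypercube 4 2) 3 A' := by
      intro k
      induction k with
      | zero => exact hcol0
      | succ k ih =>
        rw [Function.iterate_succ_apply']
        exact column_grow hC v _ ih
    have hcv : ∀ z, (v, z) ∈ closure (G □ hypercube 4 2) 3 A' :=
      fun z => hcol 6 z (gate_col z)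
    have hlev : ∀ k, ∀ z ∈ (grow (hypercube 4 2) 2)^[k] gF,
        ∀ x, (x, z) ∈ closure (G □ hypercube 4 2) 3 A' := by
      intro k
      induction k with
      | zero => exact fun z hz x => subset_closure (Or.inl hz)
      | succ k ih =>
        rw [Function.iterate_succ_apply']
        exact level_grow hC hG v hcv _ ih
    ext ⟨x, z⟩
    simp only [Set.mem_univ, iff_true]
    exact hlev 6 z (gate_lev z) x
  refine le_trans ?_ (le_maxTime hperc)
  rcases Nat.eq_zero_or_pos τ with h0 | h0
  · rw [h0]; exact Nat.zero_le _
  have h1 : (v, gz) ∉ infected (G □ hypercube 4 2) 3 A' (τ - 1) := by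
    rw [hA', hb (τ - 1) (fun j hj => hv' j (by omega))]
    rintro (h | h | h)
    · exact absurd h gate_c00
    · exact absurd h.2 gate_c01
    · exact hv' (τ - 1) (by omega) h.2
  have h2 := lt_time hv0 h1
  omega

end Pool.Agent.Bootstrap
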