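import Pool.Agent.Bootstrap.Basic

/-! Box products: counting neighbours, and lowering the threshold by freezing coordinates. -/

namespace Pool.Agent.Bootstrap

open SimpleGraph

variable {V W : Type*} {G : SimpleGraph V} {H : SimpleGraph W} {r : ℕ}

theorem ncard_nbr_boxProd [Finite V] [Finite W] (a : V) (b : W) (S : Set (V × W)) :
    ((G □ H).neighborSet (a, b) ∩ S).ncard =
      (G.neighborSet a ∩ {x | (x, b) ∈ S}).ncard + (H.neighborSet b ∩ {y | (a, y) ∈ S}).ncard := by
  have h1 : (G □ H).neighborSet (a, b) ∩ S =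
      (fun x => (x, b)) '' (G.neighborSet a ∩ {x | (x, b) ∈ S}) ∪
      (fun y => (a, y)) '' (H.neighborSet b ∩ {y | (a, y) ∈ S}) := by
    ext ⟨x, y⟩
    simp only [Set.mem_inter_iff, mem_neighborSet, boxProd_adj, Set.mem_union, Set.mem_image,
      Set.mem_setOf_eq, Prod.mk.injEq]
    constructor
    · rintro ⟨h | h, hS⟩
      · left
        refine ⟨x, ⟨h.1, ?_⟩, rfl, h.2⟩
        rw [h.2]; exact hS
      · right
        refine ⟨y, ⟨h.1, ?_⟩, h.2, rfl⟩
        rw [h.2]; exact hS
    · rintro (⟨x', ⟨h1, h2⟩, rfl, rfl⟩ | ⟨y', ⟨h1, h2⟩, rfl, rfl⟩)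
      · exact ⟨Or.inl ⟨h1, rfl⟩, h2⟩
      · exact ⟨Or.inr ⟨h1, rfl⟩, h2⟩
  rw [h1, Set.ncard_union_eq, Set.ncard_image_of_injective, Set.ncard_image_of_injective]
  · intro x y h; exact (Prod.mk.inj h).2
  · intro x y h; exact (Prod.mk.inj h).1
  · rw [Set.disjoint_left]
    rintro ⟨x, y⟩ ⟨x', ⟨h1, -⟩, h2⟩ ⟨y', ⟨h3, -⟩, h4⟩
    simp only [Prod.mk.injEq] at h2 h4
    rw [mem_neighborSet, h2.1, ← h4.1] at h1
    exact G.loopless.irrefl _ h1
  all_goals exact Set.toFinite _

/-- Freezing: outside of the layer `z0` everything is infected, so in the layer `z0` the threshold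
drops by the degree of `z0`. -/
theorem infected_frozen [Finite V] [Finite W] (z0 : W) (A : Set V) (i : ℕ) :
    infected (G □ H) (r + (H.neighborSet z0).ncard) {p | p.2 ≠ z0 ∨ p.1 ∈ A} i =
      {p | p.2 ≠ z0 ∨ p.1 ∈ infected G r A i} := by
  induction i with
  | zero => rfl
  | succ i ih =>
    ext ⟨x, z⟩
    rw [mem_infected_succ, ih]
    by_cases hz : z = z0
    · subst hz
      rw [ncard_nbr_boxProd]
      have h1 : {x | (x, z) ∈ {p : V × W | p.2 ≠ z ∨ p.1 ∈ infected G r A i}} =
          infected G r A i := by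
        ext y; simp
      have h2 : H.neighborSet z ∩ {y | (x, y) ∈ {p : V × W | p.2 ≠ z ∨ p.1 ∈ infected G r A i}} =
          H.neighborSet z := by
        apply Set.inter_eq_left.2
        intro y hy
        left
        rintro rfl
        exact H.loopless.irrefl _ hy
      rw [h1, h2]
      simp only [Set.mem_setOf_eq, ne_eq, not_true_eq_false, false_or, mem_infected_succ]
      constructor
      · rintro (h | h)
        · exact Or.inl h
        · right; omega
      · rintro (h | h)
        · exact Or.inl h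
        · right; omega
    · constructor
      · intro _; exact Or.inl hz
      · intro _; exact Or.inl (Or.inl hz)

theorem maxTime_frozen [Finite V] [Finite W] (G : SimpleGraph V) (H : SimpleGraph W) (z0 : W)
    (r : ℕ) : maxTime G r ≤ maxTime (G □ H) (r + (H.neighborSet z0).ncard) := by
  apply maxTime_le
  intro A hA
  set A' : Set (V × W) := {p | p.2 ≠ z0 ∨ p.1 ∈ A} with hA'
  have hcl : closure (G □ H) (r + (H.neighborSet z0).ncard) A' = Set.univ := by
    ext ⟨x, z⟩
    simp only [Set.mem_univ, iff_true]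
    have hx : x ∈ closure G r A := by rw [hA]; trivial
    obtain ⟨i, hi⟩ := mem_closure.1 hx
    rw [mem_closure]
    refine ⟨i, ?_⟩
    rw [hA', infected_frozen]
    exact Or.inr hi
  have ht : time (G □ H) (r + (H.neighborSet z0).ncard) A' = time G r A := by
    unfold time
    congr 1
    ext t
    show infected _ _ _ _ = closure _ _ _ ↔ infected _ _ _ _ = closure _ _ _
    rw [hcl, hA, hA', infected_frozen]
    constructor
    · intro h
      ext x
      simp only [Set.mem_univ, iff_true]
      have := h.symm.subset (Set.mem_univ (x, z0))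
      rcases this with h | h
      · exact absurd rfl h
      · exact h
    · intro h
      ext ⟨x, z⟩
      simp only [Set.mem_univ, iff_true, Set.mem_setOf_eq]
      right
      rw [h]; trivial
  rw [← ht]
  exact le_maxTime hcl

end Pool.Agent.Bootstrap
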