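import Pool.Agent.Bootstrap.SnakeProcess

/-!
# Spread snakes in hypercubes are slow paths
-/

namespace Pool.Agent.Bootstrap

open SimpleGraph

theorem hypercube_preconnected (n q : ℕ) : (hypercube n q).Preconnected := by
  have key : ∀ d, ∀ x y : Fin n → Fin q, hammingDist x y = d → (hypercube n q).Reachable x y := by
    intro d
    induction d with
    | zero =>
      intro x y h
      rw [hammingDist_eq_zero] at h
      rw [h]
    | succ d ih =>
      intro x y h
      have hne : x ≠ y := by
        rintro rfl
        simp at h
      obtain ⟨i, hi⟩ := Function.ne_iff.1 hne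
      have h1 : hammingDist x (Function.update x i (y i)) = 1 :=
        (hammingDist_eq_one_iff _ _).2 ⟨i, y i, hi.symm, rfl⟩
      have h2 : hammingDist (Function.update x i (y i)) y = d := by
        unfold hammingDist at h ⊢
        have h3 : Finset.univ.filter (fun j => x j ≠ y j) =
            insert i (Finset.univ.filter (fun j => Function.update x i (y i) j ≠ y j)) := by
          ext j
          simp only [ne_eq, Finset.mem_filter, Finset.mem_univ, true_and, Finset.mem_insert]
          by_cases hj : j = i
          · subst hj; simp [hi]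
          · simp [hj]
        rw [h3, Finset.card_insert_of_notMem] at h
        · omega
        · simp
      exact (Adj.reachable (show (hypercube n q).Adj _ _ from h1)).trans (ih _ _ h2)
  exact fun x y => key _ x y rfl

/-- A spread snake with `L` vertices in `Q_{n,q}`. -/
structure IsSpread {n q : ℕ} (P : ℕ → Fin n → Fin q) (L : ℕ) : Prop where
  adj : ∀ s, s + 1 < L → hammingDist (P s) (P (s + 1)) = 1
  spread : ∀ s t, s ≤ t → t < L → min (t - s) 3 ≤ hammingDist (P s) (P t)

theorem hammingDist_update_update {n q : ℕ} (w : Fin n → Fin q) {i j : Fin n} {a b : Fin q}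
    (ha : a ≠ w i) (hb : b ≠ w j)
    (h : hammingDist (Function.update w i a) (Function.update w j b) ≤ 1) : i = j := by
  by_contra hij
  have h1 : ({i, j} : Finset (Fin n)) ⊆ Finset.univ.filter
      (fun k => Function.update w i a k ≠ Function.update w j b k) := by
    intro k hk
    rw [Finset.mem_insert, Finset.mem_singleton] at hk
    simp only [ne_eq, Finset.mem_filter, Finset.mem_univ, true_and]
    rcases hk with rfl | rfl
    · rw [Function.update_self, Function.update_of_ne hij]
      exact ha
    · rw [Function.update_self, Function.update_of_ne (Ne.symm hij)]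
      exact fun h => hb h.symm
  have h2 := Finset.card_le_card h1
  rw [Finset.card_pair hij] at h2
  unfold hammingDist at h
  omega

theorem hammingDist_update_same {n q : ℕ} (w : Fin n → Fin q) (i : Fin n) (a b : Fin q) :
    hammingDist (Function.update w i a) (Function.update w i b) ≤ 1 := by
  have h1 : Finset.univ.filter
      (fun k => Function.update w i a k ≠ Function.update w i b k) ⊆ ({i} : Finset (Fin n)) := by
    intro k hk
    simp only [ne_eq, Finset.mem_filter, Finset.mem_univ, true_and] at hk
    rw [Finset.mem_singleton]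
    by_contra hki
    rw [Function.update_of_ne hki, Function.update_of_ne hki] at hk
    exact hk rfl
  have h2 := Finset.card_le_card h1
  rw [Finset.card_singleton] at h2
  exact h2

theorem IsSpread.isSlowPath {n q : ℕ} {P : ℕ → Fin n → Fin q} {L : ℕ} (h : IsSpread P L) :
    IsSlowPath (hypercube n q) P L := by
  have hinj : ∀ s t, s < L → t < L → P s = P t → s = t := by
    intro s t hs ht hst
    rcases le_total s t with h1 | h1
    · have := h.spread s t h1 ht
      rw [hst, hammingDist_self] at this
      omega
    · have := h.spread t s h1 hs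
      rw [hst, hammingDist_self] at this
      omega
  refine ⟨h.adj, hinj, ?_, ?_⟩
  · intro s t hs ht hst
    have hst' : hammingDist (P s) (P t) = 1 := hst
    have hne : s ≠ t := by
      rintro rfl
      rw [hammingDist_self] at hst'
      omega
    rcases le_total s t with h1 | h1
    · have := h.spread s t h1 ht
      omega
    · have := h.spread t s h1 hs
      rw [hammingDist_comm] at hst'
      omega
  · intro w hw
    by_contra hcon
    push Not at hcon
    rw [Set.two_lt_ncard_iff (Set.toFinite _)] at hcon
    obtain ⟨x, y, z, ⟨hx, s, hs, hxs⟩, ⟨hy, t, ht, hyt⟩, ⟨hz, u, hu, hzu⟩, hxy, hxz, hyz⟩ := hcon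
    subst hxs hyt hzu
    -- pairwise distances at most two
    have hd : ∀ a b, a < L → b < L → (hypercube n q).Adj w (P a) → (hypercube n q).Adj w (P b) →
        a ≤ b → b ≤ a + 2 := by
      intro a b ha hb h1 h2 hab
      have h3 := h.spread a b hab hb
      have h4 := hammingDist_triangle (P a) w (P b)
      have h5 : hammingDist w (P a) = 1 := h1
      have h6 : hammingDist w (P b) = 1 := h2
      rw [hammingDist_comm] at h5
      omega
    -- ordered version
    have hord : ∀ a b c, a < b → b < c → c < L → (hypercube n q).Adj w (P a) →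
        (hypercube n q).Adj w (P b) → (hypercube n q).Adj w (P c) → False := by
      intro a b c hab hbc hc h1 h2 h3
      have h4 := hd a c (by omega) hc h1 h3 (by omega)
      have hb : b = a + 1 := by omega
      have hc' : c = a + 2 := by omega
      subst hb hc'
      obtain ⟨i, ca, hca, e1⟩ := (hammingDist_eq_one_iff _ _).1 (show hammingDist w (P a) = 1 from h1)
      obtain ⟨j, cb, hcb, e2⟩ := (hammingDist_eq_one_iff _ _).1
        (show hammingDist w (P (a + 1)) = 1 from h2)
      obtain ⟨k, cc, hcc, e3⟩ := (hammingDist_eq_one_iff _ _).1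
        (show hammingDist w (P (a + 2)) = 1 from h3)
      have h5 := h.adj a (by omega)
      have h6 := h.adj (a + 1) (by omega)
      rw [e1, e2] at h5
      rw [e2, e3] at h6
      have hij := hammingDist_update_update w hca hcb h5.le
      have hjk := hammingDist_update_update w hcb hcc h6.le
      subst hij hjk
      have h7 := h.spread a (a + 2) (by omega) hc
      rw [e1, e3] at h7
      have h8 := hammingDist_update_same w i ca cc
      omega
    have hst : s ≠ t := fun h => hxy (by rw [h])
    have hsu : s ≠ u := fun h => hxz (by rw [h])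
    have htu : t ≠ u := fun h => hyz (by rw [h])
    rcases Nat.lt_or_gt_of_ne hst with h1 | h1
    · rcases Nat.lt_or_gt_of_ne htu with h2 | h2
      · exact hord s t u h1 h2 hu hx hy hz
      · rcases Nat.lt_or_gt_of_ne hsu with h3 | h3
        · exact hord s u t h3 h2 ht hx hz hy
        · exact hord u s t h3 h1 ht hz hx hy
    · rcases Nat.lt_or_gt_of_ne hsu with h2 | h2
      · exact hord t s u h1 h2 hu hy hx hz
      · rcases Nat.lt_or_gt_of_ne htu with h3 | h3
        · exact hord t u s h3 h2 hs hy hz hx
        · exact hord u t s h3 h1 hs hz hy hx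

/-- The reduction: a spread snake with `L` vertices in `Q_m` gives
`M(Q_{m+6+s}, 3+s) ≥ L - 1`. -/
theorem spread_maxTime {m L : ℕ} {P : ℕ → Fin m → Fin 2} (h : IsSpread P L) (s : ℕ) :
    L - 1 ≤ maxTime (hypercube (m + 6 + s) 2) (3 + s) := by
  have h1 := slowPath_maxTime (hypercube_preconnected m 2) h.isSlowPath
    (hypercube_preconnected 2 2)
  -- `(Q_m □ Q_2) □ Q_4 ≅ Q_{m+6}`
  have h2 : maxTime ((hypercube m 2 □ hypercube 2 2) □ hypercube 4 2) 3 =
      maxTime (hypercube (m + 2) 2 □ hypercube 4 2) 3 := by
    apply maxTime_iso
    exact ⟨Equiv.prodCongr (cubeProd m 2 2).toEquiv (Equiv.refl _), by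
      rintro ⟨a, b⟩ ⟨a', b'⟩
      simp only [Equiv.prodCongr_apply, boxProd_adj, Prod.map]
      show (hypercube (m + 2) 2).Adj (cubeProd m 2 2 a) (cubeProd m 2 2 a') ∧ b = b' ∨
        (hypercube 4 2).Adj b b' ∧ cubeProd m 2 2 a = cubeProd m 2 2 a' ↔ _
      rw [(cubeProd m 2 2).map_adj_iff, (cubeProd m 2 2).injective.eq_iff]
      exact Iff.rfl⟩
  have h3 := maxTime_iso (r := 3) (cubeProd (m + 2) 4 2)
  have h4 := maxTime_frozen (hypercube (m + 6) 2) (hypercube s 2) 0 3
  rw [degree_hypercube, maxTime_iso (cubeProd (m + 6) s 2)] at h4
  have h5 : s * (2 - 1) = s := by omega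
  rw [h5] at h4
  calc L - 1 ≤ _ := h1
    _ = _ := h2
    _ = maxTime (hypercube (m + 2 + 4) 2) 3 := h3
    _ ≤ _ := h4

end Pool.Agent.Bootstrap
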