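import Pool.Agent.Bootstrap.Base
import Pool.Agent.Bootstrap.Spread

/-!
# Existence of long spread snakes
-/

namespace Pool.Agent.Bootstrap

open WtGroup

/-- `G` embeds into the cube of dimension `d`, weight becoming Hamming distance. -/
def Emb (G : Type) [AddCommGroup G] [WtGroup G] (d : ℕ) : Prop :=
  ∃ φ : G → (Fin d → Fin 2), ∀ x y, wt (x + y) = hammingDist (φ x) (φ y)

theorem emb_unit : Emb Unit 0 := ⟨fun _ => Fin.elim0, fun _ _ => by
  have : wt (() + ()) = 0 := rfl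
  simp only [hammingDist_self]
  rfl⟩

theorem emb_zmod2 : Emb (ZMod 2) 1 := by
  refine ⟨fun x _ => x, ?_⟩
  decide

theorem emb_prod {A B : Type} [AddCommGroup A] [AddCommGroup B] [WtGroup A] [WtGroup B] {a b : ℕ}
    (hA : Emb A a) (hB : Emb B b) : Emb (A × B) (a + b) := by
  obtain ⟨φ, hφ⟩ := hA
  obtain ⟨ψ, hψ⟩ := hB
  refine ⟨fun x => Fin.append (φ x.1) (ψ x.2), ?_⟩
  intro x y
  rw [hammingDist_append, ← hφ, ← hψ]
  rfl

theorem emb_pi (m : ℕ) : Emb (Fin m → ZMod 2) m := by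
  refine ⟨fun x => x, ?_⟩
  intro x y
  rw [wt_pi]
  unfold hammingDist
  apply congrArg Finset.card
  ext i
  simp only [Finset.mem_filter, Finset.mem_univ, true_and, Pi.add_apply]
  exact (by decide : ∀ a b : ZMod 2, (a + b ≠ 0 ↔ a ≠ b)) (x i) (y i)

theorem iterate_bigStep (m ℓ : ℕ) (hℓ : 206 ≤ ℓ) (J : ℕ) (hJ : 3 * J ≤ 2 ^ m) :
    ∃ (K : Type) (i1 : AddCommGroup K) (i2 : WtGroup K) (n τ : ℕ) (M : ℕ → Vx (XT m) K Unit)
      (R : ℕ → K), Emb K (ℓ + 3 * J) ∧ State (RS m (3 * J)) n τ M R ∧ 8 ^ J ≤ n + 1 ∧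
        54 * J + 204 ≤ τ := by
  induction J with
  | zero =>
    refine ⟨Fin ℓ → ZMod 2, inferInstance, inferInstance, 8, 204, baseM (XT m) ℓ 204, geo ℓ,
      emb_pi ℓ, base_state (resting_RS m _) (by omega), by norm_num, by norm_num⟩
  | succ J ih =>
    obtain ⟨K, i1, i2, n, τ, M, R, hE, hst, hn, hτ⟩ := ih (by omega)
    have w0 := wt_rest_le m (3 * J)
    have w1 := wt_rest_le m (3 * J + 1)
    have w2 := wt_rest_le m (3 * J + 1 + 1)
    set v0 := 3 * (wt (rest m (3 * J)) + 3) + 1 with hv0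
    set v1 := 3 * (wt (rest m (3 * J + 1)) + 3) + 1 with hv1
    set v2 := 3 * (wt (rest m (3 * J + 1 + 1)) + 3) + 1 with hv2
    obtain ⟨n', M', R', hst', hn'⟩ := hst.bigStep (τ3 := τ - (v0 + v1 + v2)) (resting_RS m _)
      (RS_succ_subset m _) (RS_succ_subset m _) (RS_succ_subset m _)
      (rest_mem (by omega)) (rest_notMem (by omega)) (rest_mem (by omega))
      (rest_notMem (by omega)) (rest_mem (by omega)) (rest_notMem (by omega))
      (hasPath_rest m _) (hasPath_rest m _) (hasPath_rest m _)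
      (by omega) (by omega)
    refine ⟨K × L3, inferInstance, inferInstance, n', _, M', R', ?_, hst', ?_, ?_⟩
    · have := emb_prod hE (emb_prod (emb_prod (emb_prod emb_unit emb_zmod2) emb_zmod2) emb_zmod2)
      have e : ℓ + 3 * J + (0 + 1 + 1 + 1) = ℓ + 3 * (J + 1) := by ring
      rw [e] at this
      exact this
    · rw [pow_succ]; omega
    · omega

/-- There is a spread snake with at least `8^J` vertices in the cube of dimension
`m + ℓ + 11 + 3J`, provided `3J ≤ 2^m` and `ℓ ≥ 206`. -/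
theorem snake_exists (m ℓ J : ℕ) (hℓ : 206 ≤ ℓ) (hJ : 3 * J ≤ 2 ^ m) :
    ∃ P : ℕ → Fin (m + ℓ + 11 + 3 * J) → Fin 2, ∃ L, 8 ^ J ≤ L ∧ IsSpread P L := by
  obtain ⟨K, i1, i2, n, τ, M, R, hE, hst, hn, hτ⟩ := iterate_bigStep m ℓ hℓ J hJ
  have eTri : Emb Tri 3 := emb_prod emb_zmod2 (emb_prod emb_zmod2 emb_zmod2)
  have eX : Emb (XT m) (3 + (1 + m)) := emb_prod eTri (emb_prod emb_zmod2 (emb_pi m))
  have eV : Emb (XT m × Tri × Tri × K × Unit × ZMod 2) (m + ℓ + 11 + 3 * J) := by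
    have := emb_prod eX (emb_prod eTri (emb_prod eTri (emb_prod hE (emb_prod emb_unit emb_zmod2))))
    have e : 3 + (1 + m) + (3 + (3 + (ℓ + 3 * J + (0 + 1)))) = m + ℓ + 11 + 3 * J := by ring
    rw [e] at this
    exact this
  obtain ⟨φ, hφ⟩ := eV
  let tup : Vx (XT m) K Unit → XT m × Tri × Tri × K × Unit × ZMod 2 :=
    fun u => (u.x, u.t, u.t', u.k, u.l, u.e)
  have hd : ∀ u v : Vx (XT m) K Unit, hammingDist (φ (tup u)) (φ (tup v)) = dd 0 u v := by
    intro u v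
    rw [← hφ]
    show wt (u.x + v.x) + (wt (u.t + v.t) + (wt (u.t' + v.t') + (wt (u.k + v.k) +
      (wt (u.l + v.l) + wt (u.e + v.e))))) = _
    unfold dd
    rw [show u.x + v.x + 0 = u.x + v.x from add_zero _]
    omega
  refine ⟨fun i => φ (tup (M i)), n + 1, hn, ?_, ?_⟩
  · intro s hs
    rw [hd]
    exact (hst.phi s (s + 1) (by omega) (by omega)).adj (by omega)
  · intro s t hst' ht
    rw [hd]
    exact (hst.phi s t hst' (by omega)).spread

end Pool.Agent.Bootstrap
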