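import Pool.Agent.Bootstrap.Gate

/-!
# From snakes to slow processes
-/

namespace Pool.Agent.Bootstrap

open SimpleGraph

variable {V W : Type*} {G : SimpleGraph V} {H : SimpleGraph W}

/-- `P 0, …, P (L-1)` is a path such that vertices with distance at most two in the graph have
indices differing by at most two; in the form needed for the process. -/
structure IsSlowPath (G : SimpleGraph V) (P : ℕ → V) (L : ℕ) : Prop where
  adj : ∀ s, s + 1 < L → G.Adj (P s) (P (s + 1))
  inj : ∀ s t, s < L → t < L → P s = P t → s = t
  induced : ∀ s t, s < L → t < L → G.Adj (P s) (P t) → s = t + 1 ∨ t = s + 1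
  nbrs : ∀ w, (∀ s < L, w ≠ P s) → (G.neighborSet w ∩ {x | ∃ s < L, x = P s}).ncard ≤ 2

/-- The configuration after `i` rounds. -/
def pathConf (P : ℕ → V) (L : ℕ) (z0 z1 z2 : W) (i : ℕ) : Set (V × W) :=
  {p | (∃ s < L, p.1 = P s) ∧ (p.2 = z1 ∨ p.2 = z2) ∨ (∃ s < L, s ≤ i ∧ p.1 = P s) ∧ p.2 = z0}

theorem infected_path [Finite V] [Fintype W] [DecidableEq W] [DecidableRel H.Adj]
    {P : ℕ → V} {L : ℕ} (hP : IsSlowPath G P L) (z0 z1 z2 : W)
    (h01 : H.Adj z0 z1) (h02 : H.Adj z0 z2) (h12 : ¬ H.Adj z1 z2) (hne : z1 ≠ z2)
    (hz : ∀ z, z ≠ z0 → z ≠ z1 → z ≠ z2 → nb H {z0, z1, z2} z ≤ 2) (i : ℕ) :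
    infected (G □ H) 3 (pathConf P L z0 z1 z2 0) i = pathConf P L z0 z1 z2 i := by
  have hz01 : z0 ≠ z1 := h01.ne
  have hz02 : z0 ≠ z2 := h02.ne
  induction i with
  | zero => rfl
  | succ i ih =>
    ext ⟨x, z⟩
    rw [mem_infected_succ, ih, ncard_nbr_boxProd]
    by_cases h0 : z = z0
    · subst h0
      by_cases hx : ∃ t < L, x = P t
      · obtain ⟨t, ht, rfl⟩ := hx
        -- the column part is exactly `{z1, z2}`
        have e2 : 2 ≤ (H.neighborSet z ∩ {y | (P t, y) ∈ pathConf P L z z1 z2 i}).ncard := by
          have : ({z1, z2} : Set W) ⊆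
              H.neighborSet z ∩ {y | (P t, y) ∈ pathConf P L z z1 z2 i} := by
            rintro y (rfl | rfl)
            · exact ⟨h01, Or.inl ⟨⟨t, ht, rfl⟩, Or.inl rfl⟩⟩
            · exact ⟨h02, Or.inl ⟨⟨t, ht, rfl⟩, Or.inr rfl⟩⟩
          have h3 := Set.ncard_le_ncard this (Set.toFinite _)
          rwa [Set.ncard_pair hne] at h3
        have e2' : (H.neighborSet z ∩ {y | (P t, y) ∈ pathConf P L z z1 z2 i}).ncard ≤ 2 := by
          have : H.neighborSet z ∩ {y | (P t, y) ∈ pathConf P L z z1 z2 i} ⊆
              ({z1, z2} : Set W) := by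
            rintro y ⟨hy1, hy2⟩
            rcases hy2 with ⟨-, h | h⟩ | ⟨-, h⟩
            · left; exact h
            · right; exact h
            · have h' : y = z := h
              subst h'
              exact absurd hy1 (H.loopless.irrefl _)
          have h3 := Set.ncard_le_ncard this (Set.toFinite _)
          rwa [Set.ncard_pair hne] at h3
        constructor
        · rintro (h | h)
          · rcases h with ⟨-, h | h⟩ | ⟨⟨s, hs, hsi, h⟩, -⟩
            · exact absurd h hz01
            · exact absurd h hz02
            · exact Or.inr ⟨⟨s, hs, by omega, h⟩, rfl⟩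
          · have e3 : 0 < (G.neighborSet (P t) ∩
                {x | (x, z) ∈ pathConf P L z z1 z2 i}).ncard := by omega
            rw [Set.ncard_pos (Set.toFinite _)] at e3
            obtain ⟨y, hy1, hy2⟩ := e3
            rcases hy2 with ⟨-, h | h⟩ | ⟨⟨s, hs, hsi, h⟩, -⟩
            · exact absurd h hz01
            · exact absurd h hz02
            · have h' : y = P s := h
              subst h'
              have := hP.induced t s ht hs hy1
              refine Or.inr ⟨⟨t, ht, by omega, rfl⟩, rfl⟩
        · rintro (⟨-, h | h⟩ | ⟨⟨s, hs, hsi, h⟩, -⟩)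
          · exact absurd h hz01
          · exact absurd h hz02
          · have hst : t = s := hP.inj t s ht hs h
            subst hst
            rcases Nat.lt_or_ge i t with hit | hit
            · -- newly infected
              right
              have hti : t = i + 1 := by omega
              have e3 : 0 < (G.neighborSet (P t) ∩
                  {x | (x, z) ∈ pathConf P L z z1 z2 i}).ncard := by
                rw [Set.ncard_pos (Set.toFinite _)]
                refine ⟨P i, ?_, Or.inr ⟨⟨i, by omega, le_rfl, rfl⟩, rfl⟩⟩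
                rw [hti]
                exact (hP.adj i (by omega)).symm
              omega
            · left
              exact Or.inr ⟨⟨t, ht, hit, rfl⟩, rfl⟩
      · push Not at hx
        -- outside of the path
        have e1 : (G.neighborSet x ∩ {x | (x, z) ∈ pathConf P L z z1 z2 i}).ncard ≤ 2 := by
          refine le_trans (Set.ncard_le_ncard ?_ (Set.toFinite _)) (hP.nbrs x hx)
          rintro y ⟨hy1, hy2⟩
          refine ⟨hy1, ?_⟩
          rcases hy2 with ⟨h, -⟩ | ⟨⟨s, hs, hsi, h⟩, -⟩
          · exact h
          · exact ⟨s, hs, h⟩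
        have e2 : H.neighborSet z ∩ {y | (x, y) ∈ pathConf P L z z1 z2 i} = ∅ := by
          rw [Set.eq_empty_iff_forall_notMem]
          rintro y ⟨-, hy2⟩
          rcases hy2 with ⟨⟨s, hs, h⟩, -⟩ | ⟨⟨s, hs, hsi, h⟩, -⟩
          · exact hx s hs h
          · exact hx s hs h
        rw [e2, Set.ncard_empty]
        constructor
        · rintro (h | h)
          · rcases h with ⟨⟨s, hs, h⟩, -⟩ | ⟨⟨s, hs, hsi, h⟩, -⟩
            · exact absurd h (hx s hs)
            · exact absurd h (hx s hs)
          · omega
        · rintro (⟨⟨s, hs, h⟩, -⟩ | ⟨⟨s, hs, hsi, h⟩, -⟩)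
          · exact absurd h (hx s hs)
          · exact absurd h (hx s hs)
    · by_cases h12' : z = z1 ∨ z = z2
      · -- a seed level
        constructor
        · rintro (h | h)
          · rcases h with h | h
            · exact Or.inl h
            · exact absurd h.2 h0
          · by_cases hx : ∃ t < L, x = P t
            · exact Or.inl ⟨hx, h12'⟩
            · exfalso
              push Not at hx
              have e1 : (G.neighborSet x ∩ {x | (x, z) ∈ pathConf P L z0 z1 z2 i}).ncard ≤ 2 := by
                refine le_trans (Set.ncard_le_ncard ?_ (Set.toFinite _)) (hP.nbrs x hx)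
                rintro y ⟨hy1, hy2⟩
                refine ⟨hy1, ?_⟩
                rcases hy2 with ⟨h, -⟩ | ⟨⟨s, hs, hsi, h⟩, -⟩
                · exact h
                · exact ⟨s, hs, h⟩
              have e2 : H.neighborSet z ∩ {y | (x, y) ∈ pathConf P L z0 z1 z2 i} = ∅ := by
                rw [Set.eq_empty_iff_forall_notMem]
                rintro y ⟨-, hy2⟩
                rcases hy2 with ⟨⟨s, hs, h⟩, -⟩ | ⟨⟨s, hs, hsi, h⟩, -⟩
                · exact hx s hs h
                · exact hx s hs h
              rw [e2, Set.ncard_empty] at h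
              omega
        · rintro (h | h)
          · exact Or.inl (Or.inl h)
          · exact absurd h.2 h0
      · -- other levels
        push Not at h12'
        have e1 : G.neighborSet x ∩ {x | (x, z) ∈ pathConf P L z0 z1 z2 i} = ∅ := by
          rw [Set.eq_empty_iff_forall_notMem]
          rintro y ⟨-, hy2⟩
          rcases hy2 with ⟨-, h | h⟩ | ⟨-, h⟩
          · exact h12'.1 h
          · exact h12'.2 h
          · exact h0 h
        have e2 : (H.neighborSet z ∩ {y | (x, y) ∈ pathConf P L z0 z1 z2 i}).ncard ≤ 2 := by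
          refine le_trans ?_ (hz z h0 h12'.1 h12'.2)
          unfold nb
          rw [← Set.ncard_coe_finset]
          apply Set.ncard_le_ncard _ (Set.toFinite _)
          rintro y ⟨hy1, hy2⟩
          rw [Finset.mem_coe, Finset.mem_filter]
          refine ⟨?_, hy1⟩
          simp only [Finset.mem_insert, Finset.mem_singleton]
          rcases hy2 with ⟨-, h | h⟩ | ⟨-, h⟩
          · exact Or.inr (Or.inl h)
          · exact Or.inr (Or.inr h)
          · exact Or.inl h
        rw [e1, Set.ncard_empty]
        constructor
        · rintro (h | h)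
          · rcases h with ⟨-, h | h⟩ | ⟨-, h⟩
            · exact absurd h h12'.1
            · exact absurd h h12'.2
            · exact absurd h h0
          · omega
        · rintro (⟨-, h | h⟩ | ⟨-, h⟩)
          · exact absurd h h12'.1
          · exact absurd h h12'.2
          · exact absurd h h0

/-- A slow path with `L` vertices in a connected graph `G` gives a percolating set in
`G □ Q_2 □ Q_4` with percolation time at least `L - 1`. -/
theorem slowPath_maxTime [Finite V] (hG : G.Preconnected) {P : ℕ → V} {L : ℕ}
    (hP : IsSlowPath G P L) (hQ : (hypercube 2 2).Preconnected) :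
    L - 1 ≤ maxTime ((G □ hypercube 2 2) □ hypercube 4 2) 3 := by
  rcases Nat.eq_zero_or_pos L with h0 | h0
  · subst h0; simp
  have hinf := infected_path (H := hypercube 2 2) hP ![0, 0] ![1, 0] ![0, 1]
    (by decide +kernel) (by decide +kernel) (by decide +kernel) (by decide +kernel)
    (by decide +kernel)
  apply gate (hG.boxProd hQ) (pathConf P L ![0, 0] ![1, 0] ![0, 1] 0) (P (L - 1), ![0, 0])
  · rw [hinf]
    exact Or.inr ⟨⟨L - 1, by omega, le_rfl, rfl⟩, rfl⟩
  · intro j hj
    rw [hinf]
    rintro (⟨-, h | h⟩ | ⟨⟨s, hs, hsj, h⟩, -⟩)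
    · exact absurd (show (![0, 0] : Fin 2 → Fin 2) = ![1, 0] from h) (by decide)
    · exact absurd (show (![0, 0] : Fin 2 → Fin 2) = ![0, 1] from h) (by decide)
    · have := hP.inj _ _ (by omega) hs h
      omega

end Pool.Agent.Bootstrap
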