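import Pool.Agent.Bootstrap.State

/-!
# Soft sequences and the track of the upper layer
-/

namespace Pool.Agent.Bootstrap

open WtGroup

theorem wt_one2 : wt (1 : ZMod 2) = 1 := by decide
theorem wt_tT : wt tT = 3 := by decide
theorem wt_tA : wt tA = 1 := by decide
theorem wt_tAB : wt tAB = 2 := by decide
theorem wt_tT_tA : wt (tT + tA) = 2 := by decide
theorem wt_tT_tAB : wt (tT + tAB) = 1 := by decide
theorem wt_tA_tAB : wt (tA + tAB) = 1 := by decide

section
variable {X : Type} [AddCommGroup X] [WtGroup X]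

/-- The sequence of soft offsets along the upper highway: from `(0, T)` to `(h, 0)`. -/
structure SoftSeq (S : Set X) (h : X) (m : ℕ) (sx : ℕ → X) (st : ℕ → Tri) : Prop where
  hm : 1 ≤ m
  x0 : sx 0 = 0
  t0 : st 0 = tT
  t1 : st 1 = tT
  xm : sx m = h
  tm : st m = 0
  step : ∀ k < m, wt (sx k + sx (k + 1)) + wt (st k + st (k + 1)) = 1
  w3 : ∀ k ≤ m, 3 ≤ wt (sx k) + wt (st k)
  avoid : ∀ k ≤ m, ∀ h' ∈ S, 1 ≤ wt (sx k + h') + wt (st k)

theorem exists_softSeq {S S' : Set X} (hS : Resting S) (hS' : S' ⊆ S) {h : X} (hh : h ∈ S)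
    (hh' : h ∉ S') (hp : HasPath h) :
    ∃ sx : ℕ → X, ∃ st : ℕ → Tri, SoftSeq S' h (wt h + 3) sx st := by
  obtain ⟨p, p0, pw, pstep⟩ := hp
  have h3 := hS.wt3 h hh
  set ω := wt h with hω
  obtain ⟨sx, vx, vx'⟩ : ∃ sx : ℕ → X, (∀ k ≤ ω, sx k = p k) ∧ (∀ k, ω < k → sx k = h) :=
    ⟨fun k => if k ≤ ω then p k else h, fun k hk => if_pos hk, fun k hk => if_neg (by omega)⟩
  obtain ⟨st, vt, vt1, vt2, vt3⟩ : ∃ st : ℕ → Tri, (∀ k ≤ ω, st k = tT) ∧
      st (ω + 1) = (0, 1, 1) ∧ st (ω + 2) = (0, 0, 1) ∧ st (ω + 3) = 0 := by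
    refine ⟨fun k => if k ≤ ω then tT else if k = ω + 1 then (0, 1, 1) else
      if k = ω + 2 then (0, 0, 1) else 0, fun k hk => if_pos hk, ?_, ?_, ?_⟩
    · simp
    · simp
    · simp
  refine ⟨sx, st, ?_⟩
  refine ⟨by omega, ?_, ?_, ?_, ?_, ?_, ?_, ?_, ?_⟩
  · rw [vx 0 (by omega), p0]
  · rw [vt 0 (by omega)]
  · rw [vt 1 (by omega)]
  · rw [vx' _ (by omega)]
  · exact vt3
  · intro k hk
    by_cases h1 : k < ω
    · rw [vx k (by omega), vx (k + 1) (by omega), vt k (by omega), vt (k + 1) (by omega),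
        pstep k h1, add_self, wt_zero]
    by_cases h2 : k = ω
    · rw [h2, vx ω le_rfl, vx' (ω + 1) (by omega), vt ω le_rfl, vt1, pw, add_self, wt_zero]
      decide
    by_cases h4 : k = ω + 1
    · rw [h4, vx' (ω + 1) (by omega), vx' (ω + 1 + 1) (by omega), vt1, vt2, add_self, wt_zero]
      decide
    · have h5 : k = ω + 2 := by omega
      rw [h5, vx' (ω + 2) (by omega), vx' (ω + 2 + 1) (by omega), vt2, vt3, add_self, wt_zero]
      decide
  · intro k hk
    by_cases h1 : k ≤ ω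
    · rw [vt k h1, wt_tT]
      omega
    · rw [vx' k (by omega)]
      omega
  · intro k hk h' hh''
    by_cases h1 : k ≤ ω
    · rw [vt k h1, wt_tT]
      omega
    · rw [vx' k (by omega)]
      have hne : h ≠ h' := by
        rintro rfl
        exact hh' hh''
      have := hS.wt2 h hh h' (hS' hh'') hne
      omega

end

section
variable {X K : Type} [AddCommGroup X] [WtGroup X] [AddCommGroup K] [WtGroup K]

/-- position on the highway -/
def pos (i : ℕ) : ℕ := 3 * (i / 4) + i % 4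

/-- distance between two points of the upper track -/
def trk (sx : ℕ → X) (st : ℕ → Tri) (r : ℕ → K) (h : X) (i j : ℕ) : ℕ :=
  wt (sx (i / 4) + sx (j / 4) + h) + wt (st (i / 4) + st (j / 4)) + wt (r (pos i) + r (pos j))

theorem track_pair {S : Set X} {h : X} {m : ℕ} {sx : ℕ → X} {st : ℕ → Tri}
    (hS : Resting S) (Q : SoftSeq S h m sx st) {r : ℕ → K}
    (Radj : ∀ i ≤ 3 * m + 1, wt (r i + r (i + 1)) = 1)
    (Rsp : ∀ i j, i ≤ j → j ≤ 3 * m + 2 → min (j - i) 3 ≤ wt (r i + r j))
    {i j : ℕ} (hij : i ≤ j) (hj : j ≤ 4 * m + 2) :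
    min (j - i) 3 ≤ trk sx st r 0 i j ∧ (j - i = 1 → trk sx st r 0 i j = 1) ∧
    (∀ h' ∈ S, 2 ≤ trk sx st r h' i j) ∧
    (∀ h' ∈ S, ∀ h'' ∈ S, h' ≠ h'' → 1 ≤ trk sx st r (h' + h'') i j) := by
  have hsp := Rsp (pos i) (pos j) (by unfold pos; omega) (by unfold pos; omega)
  rcases Nat.lt_trichotomy (i / 4 + 1) (j / 4) with h1 | h1 | h1
  · -- far apart
    have h2 : 3 ≤ wt (r (pos i) + r (pos j)) := by
      unfold pos at hsp ⊢; omega
    unfold trk
    refine ⟨by omega, fun h => by omega, fun h' _ => by omega, fun _ _ _ _ _ => by omega⟩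
  · -- one flip in between
    have hst := Q.step (i / 4) (by omega)
    rw [h1] at hst
    have hle : wt (sx (i / 4) + sx (j / 4)) ≤ 1 := by omega
    have hsub : ∀ a : X, wt a ≤ 1 + wt (sx (i / 4) + sx (j / 4) + a) := fun a =>
      (wt_le_add (sx (i / 4) + sx (j / 4)) a).trans (by omega)
    refine ⟨?_, ?_, ?_, ?_⟩
    · unfold trk
      rw [add_zero]
      unfold pos at hsp ⊢
      omega
    · intro h2
      unfold trk
      rw [add_zero, hst]
      have : pos i = pos j := by unfold pos; omega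
      rw [this, add_self, wt_zero]
    · intro h' hh'
      have h3 := hS.wt3 h' hh'
      have h4 := hsub h'
      unfold trk
      omega
    · intro h' hh' h'' hh'' hne
      have h3 := hS.wt2 h' hh' h'' hh'' hne
      have h4 := hsub (h' + h'')
      unfold trk
      omega
  · -- no flip in between
    have h2 : i / 4 = j / 4 := by omega
    have ht : ∀ a : X, trk sx st r a i j = wt a + wt (r (pos i) + r (pos j)) := by
      intro a
      unfold trk
      rw [h2, add_self (sx (j / 4)), add_self (st (j / 4)), wt_zero, zero_add, add_zero]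
    refine ⟨?_, ?_, ?_, ?_⟩
    · rw [ht, wt_zero]
      unfold pos at hsp ⊢
      rw [h2] at hsp
      rw [h2]
      omega
    · intro h3
      have : pos j = pos i + 1 := by unfold pos; omega
      rw [ht, this, Radj (pos i) (by unfold pos; omega), wt_zero]
    · intro h' hh'
      have h3 := hS.wt3 h' hh'
      rw [ht]
      omega
    · intro h' hh' h'' hh'' hne
      have h3 := hS.wt2 h' hh' h'' hh'' hne
      rw [ht]
      omega

end

end Pool.Agent.Bootstrap
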