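import Pool.Agent.Bootstrap.Wt

/-!
# States of the snake construction
-/

namespace Pool.Agent.Bootstrap

open WtGroup

/-- Three binary coordinates. -/
abbrev Tri := ZMod 2 × ZMod 2 × ZMod 2

/-- all ones -/
def tT : Tri := (1, 1, 1)
/-- first coordinate -/
def tA : Tri := (1, 0, 0)
/-- first two coordinates -/
def tAB : Tri := (1, 1, 0)

/-- A vertex: resting part `x`, the triple used by the end offset `t`, the free triple `t'`,
the highway part `k`, the used layering part `l` and the last layering coordinate `e`. -/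
structure Vx (X K L : Type) where
  x : X
  t : Tri
  t' : Tri
  k : K
  l : L
  e : ZMod 2

variable {X K L : Type} [AddCommGroup X] [WtGroup X] [AddCommGroup K] [WtGroup K]
  [AddCommGroup L] [WtGroup L]

/-- The distance of `u` and `v` shifted by the resting vector `h`. -/
def dd (h : X) (u v : Vx X K L) : ℕ :=
  wt (u.x + v.x + h) + wt (u.t + v.t) + wt (u.t' + v.t') + wt (u.k + v.k) + wt (u.l + v.l) +
    wt (u.e + v.e)

theorem dd_comm (h : X) (u v : Vx X K L) : dd h u v = dd h v u := by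
  unfold dd
  rw [add_comm u.x, add_comm u.t, add_comm u.t', add_comm u.k, add_comm u.l, add_comm u.e]

theorem dd_ge_k (h : X) (u v : Vx X K L) : wt (u.k + v.k) ≤ dd h u v := by
  unfold dd; omega

theorem dd_ge_t' (h : X) (u v : Vx X K L) : wt (u.t' + v.t') ≤ dd h u v := by
  unfold dd; omega

/-- The pair property, for two vertices at index distance `d`. -/
structure Phi (S : Set X) (d : ℕ) (u v : Vx X K L) : Prop where
  spread : min d 3 ≤ dd 0 u v
  adj : d = 1 → dd 0 u v = 1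
  inv1 : ∀ h ∈ S, 2 ≤ dd h u v
  inv2 : ∀ h ∈ S, ∀ h' ∈ S, h ≠ h' → 1 ≤ dd (h + h') u v

theorem Phi.symm {S : Set X} {d : ℕ} {u v : Vx X K L} (h : Phi S d u v) : Phi S d v u := by
  refine ⟨?_, ?_, ?_, ?_⟩
  · rw [dd_comm]; exact h.spread
  · rw [dd_comm]; exact h.adj
  · intro a ha; rw [dd_comm]; exact h.inv1 a ha
  · intro a ha b hb hab; rw [dd_comm]; exact h.inv2 a ha b hb hab

theorem Phi.mono {S S' : Set X} {d : ℕ} {u v : Vx X K L} (h : Phi S d u v) (hS : S' ⊆ S) :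
    Phi S' d u v :=
  ⟨h.spread, h.adj, fun a ha => h.inv1 a (hS ha),
    fun a ha b hb hab => h.inv2 a (hS ha) b (hS hb) hab⟩

theorem Phi.of_three {S : Set X} {u v : Vx X K L} (h : Phi S 3 u v) {d : ℕ} (hd : 2 ≤ d) :
    Phi S d u v := by
  have := h.spread
  exact ⟨by omega, fun h => by omega, h.inv1, h.inv2⟩

theorem Phi.of_k {S : Set X} {u v : Vx X K L} (h : 3 ≤ wt (u.k + v.k)) {d : ℕ} (hd : 2 ≤ d) :
    Phi S d u v := by
  have h1 := fun h => dd_ge_k h u v
  refine ⟨?_, fun h => by omega, fun a _ => ?_, fun a _ b _ _ => ?_⟩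
  · have := h1 0; omega
  · have := h1 a; omega
  · have := h1 (a + b); omega

theorem Phi.of_t' {S : Set X} {u v : Vx X K L} (h : 3 ≤ wt (u.t' + v.t')) {d : ℕ} (hd : 2 ≤ d) :
    Phi S d u v := by
  have h1 := fun h => dd_ge_t' h u v
  refine ⟨?_, fun h => by omega, fun a _ => ?_, fun a _ b _ _ => ?_⟩
  · have := h1 0; omega
  · have := h1 a; omega
  · have := h1 (a + b); omega

/-- A set of resting vectors. -/
structure Resting (S : Set X) : Prop where
  wt3 : ∀ h ∈ S, 3 ≤ wt h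
  wt2 : ∀ h ∈ S, ∀ h' ∈ S, h ≠ h' → 2 ≤ wt (h + h')

/-- A geodesic from `0` to `h`. -/
def HasPath (h : X) : Prop :=
  ∃ p : ℕ → X, p 0 = 0 ∧ p (wt h) = h ∧ ∀ k < wt h, wt (p k + p (k + 1)) = 1

/-- A highway `R 0, …, R (τ + 1)`. -/
structure Highway (τ : ℕ) (R : ℕ → K) : Prop where
  adj : ∀ i ≤ τ, wt (R i + R (i + 1)) = 1
  spread : ∀ i j, i ≤ j → j ≤ τ + 1 → min (j - i) 3 ≤ wt (R i + R j)

/-- A state of the construction. -/
structure State (S : Set X) (n τ : ℕ) (M : ℕ → Vx X K L) (R : ℕ → K) : Prop where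
  hn : 4 ≤ n
  high : Highway τ R
  phi : ∀ i j, i ≤ j → j ≤ n → Phi S (j - i) (M i) (M j)
  start0 : M 0 = ⟨0, 0, 0, R τ, 0, 0⟩
  start1 : M 1 = ⟨0, 0, 0, R (τ + 1), 0, 0⟩
  end0 : M n = ⟨0, tT, 0, R τ, 0, 1⟩
  end1 : M (n - 1) = ⟨0, tT, 0, R (τ + 1), 0, 1⟩
  bulk : ∀ s, 2 ≤ s → s + 2 ≤ n → ∀ j < τ, 3 ≤ wt ((M s).k + R j)

/-! ### The shape of an extended path -/

/-- the extended path -/
def ext {α : Type} (q n : ℕ) (g gc m : ℕ → α) (i : ℕ) : α :=
  if i < q then g i else if i ≤ q + n then m (i - q) else gc (2 * q + n - i)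

section
variable {α : Type} {q n : ℕ} {g gc m : ℕ → α}

theorem ext_lt {i : ℕ} (h : i < q) : ext q n g gc m i = g i := by
  unfold ext; rw [if_pos h]

theorem ext_mid {i : ℕ} (h : q ≤ i) (h' : i ≤ q + n) : ext q n g gc m i = m (i - q) := by
  unfold ext; rw [if_neg (by omega), if_pos h']

theorem ext_gt {i : ℕ} (h : q + n < i) : ext q n g gc m i = gc (2 * q + n - i) := by
  unfold ext; rw [if_neg (by omega), if_neg (by omega)]

/-- Boundary conditions. -/
structure Fits (q n : ℕ) (g gc m : ℕ → α) : Prop where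
  hn : 4 ≤ n
  m0 : m 0 = g q
  m1 : m 1 = g (q + 1)
  mn : m n = gc q
  mn1 : m (n - 1) = gc (q + 1)

theorem Fits.ext_A (F : Fits q n g gc m) {i : ℕ} (h : i ≤ q + 1) : ext q n g gc m i = g i := by
  rcases Nat.lt_or_ge i q with h1 | h1
  · exact ext_lt h1
  · have := F.hn
    rw [ext_mid h1 (by omega)]
    rcases Nat.eq_or_lt_of_le h1 with h2 | h2
    · subst h2
      rw [Nat.sub_self]; exact F.m0
    · have : i = q + 1 := by omega
      subst this
      rw [Nat.add_sub_cancel_left]; exact F.m1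

theorem Fits.ext_C (F : Fits q n g gc m) {i : ℕ} (h : q + n ≤ i + 1) (h' : i ≤ 2 * q + n) :
    ext q n g gc m i = gc (2 * q + n - i) := by
  rcases Nat.lt_or_ge (q + n) i with h1 | h1
  · exact ext_gt h1
  · have := F.hn
    rw [ext_mid (by omega) h1]
    rcases Nat.eq_or_lt_of_le h1 with h2 | h2
    · subst h2
      have e1 : q + n - q = n := by omega
      have e2 : 2 * q + n - (q + n) = q := by omega
      rw [e1, e2]; exact F.mn
    · have h3 : i = q + n - 1 := by omega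
      subst h3
      have e1 : q + n - 1 - q = n - 1 := by omega
      have e2 : 2 * q + n - (q + n - 1) = q + 1 := by omega
      rw [e1, e2]; exact F.mn1

theorem Fits.pair (F : Fits q n g gc m) (Q : ℕ → α → α → Prop)
    (AA : ∀ i j, i ≤ j → j ≤ q + 1 → Q (j - i) (g i) (g j))
    (CC : ∀ i j, i ≤ j → j ≤ q + 1 → Q (j - i) (gc j) (gc i))
    (BB : ∀ i j, i ≤ j → j ≤ n → Q (j - i) (m i) (m j))
    (AB : ∀ i s d, i < q → 2 ≤ s → s + 2 ≤ n → 2 ≤ d → Q d (g i) (m s))
    (BC : ∀ i s d, i < q → 2 ≤ s → s + 2 ≤ n → 2 ≤ d → Q d (m s) (gc i))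
    (AC : ∀ i j d, i ≤ q + 1 → j ≤ q + 1 → 2 ≤ d → Q d (g i) (gc j)) :
    ∀ i j, i ≤ j → j ≤ 2 * q + n → Q (j - i) (ext q n g gc m i) (ext q n g gc m j) := by
  intro i j hij hj
  have hn := F.hn
  by_cases h1 : j ≤ q + 1
  · rw [F.ext_A h1, F.ext_A (hij.trans h1)]
    exact AA i j hij h1
  by_cases h2 : q + n ≤ i + 1
  · rw [F.ext_C h2 (hij.trans hj), F.ext_C (by omega) hj]
    have := CC (2 * q + n - j) (2 * q + n - i) (by omega) (by omega)
    have e : 2 * q + n - i - (2 * q + n - j) = j - i := by omega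
    rw [e] at this
    exact this
  by_cases h3 : q ≤ i ∧ j ≤ q + n
  · rw [ext_mid h3.1 (by omega), ext_mid (by omega) h3.2]
    have := BB (i - q) (j - q) (by omega) (by omega)
    have e : j - q - (i - q) = j - i := by omega
    rw [e] at this
    exact this
  by_cases h4 : i < q
  · by_cases h5 : j + 2 ≤ q + n
    · rw [ext_lt h4, ext_mid (by omega) (by omega)]
      exact AB i (j - q) (j - i) h4 (by omega) (by omega) (by omega)
    · rw [ext_lt h4, F.ext_C (by omega) hj]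
      exact AC i _ _ (by omega) (by omega) (by omega)
  · -- `i ≥ q`, so `j > q + n`
    have h5 : q + n < j := by
      by_contra h
      exact h3 ⟨by omega, by omega⟩
    by_cases h6 : i ≤ q + 1
    · rw [F.ext_A h6, ext_gt h5]
      exact AC i _ _ h6 (by omega) (by omega)
    · rw [ext_mid (by omega) (by omega), ext_gt h5]
      exact BC _ (i - q) _ (by omega) (by omega) (by omega) (by omega)

end

theorem Fits.cross {α : Type} {n q1 q2 : ℕ} {g1 gc1 m1 g2 gc2 m2 : ℕ → α}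
    (F1 : Fits q1 n g1 gc1 m1) (F2 : Fits q2 n g2 gc2 m2) (Q : α → α → Prop)
    (AA : ∀ i j, i ≤ q1 + 1 → j ≤ q2 + 1 → Q (g1 i) (g2 j))
    (CC : ∀ i j, i ≤ q1 + 1 → j ≤ q2 + 1 → Q (gc1 i) (gc2 j))
    (AC : ∀ i j, i ≤ q1 + 1 → j ≤ q2 + 1 → Q (g1 i) (gc2 j))
    (CA : ∀ i j, i ≤ q1 + 1 → j ≤ q2 + 1 → Q (gc1 i) (g2 j))
    (BB : ∀ i j, i ≤ n → j ≤ n → Q (m1 i) (m2 j))
    (AB : ∀ i s, i < q1 → 2 ≤ s → s + 2 ≤ n → Q (g1 i) (m2 s))
    (BA : ∀ s j, j < q2 → 2 ≤ s → s + 2 ≤ n → Q (m1 s) (g2 j))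
    (CB : ∀ i s, i < q1 → 2 ≤ s → s + 2 ≤ n → Q (gc1 i) (m2 s))
    (BC : ∀ s j, j < q2 → 2 ≤ s → s + 2 ≤ n → Q (m1 s) (gc2 j)) :
    ∀ i j, i ≤ 2 * q1 + n → j ≤ 2 * q2 + n →
      Q (ext q1 n g1 gc1 m1 i) (ext q2 n g2 gc2 m2 j) := by
  intro i j hi hj
  have hn := F1.hn
  by_cases hi1 : i ≤ q1 + 1
  · by_cases hj1 : j ≤ q2 + 1
    · rw [F1.ext_A hi1, F2.ext_A hj1]
      exact AA i j hi1 hj1
    by_cases hj2 : q2 + n ≤ j + 1
    · rw [F1.ext_A hi1, F2.ext_C hj2 hj]
      exact AC i _ hi1 (by omega)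
    by_cases hi0 : i < q1
    · rw [F1.ext_A hi1, ext_mid (by omega) (by omega)]
      exact AB i _ hi0 (by omega) (by omega)
    · rw [ext_mid (by omega) (by omega), ext_mid (by omega) (by omega)]
      exact BB _ _ (by omega) (by omega)
  by_cases hi2 : q1 + n ≤ i + 1
  · by_cases hj1 : j ≤ q2 + 1
    · rw [F1.ext_C hi2 hi, F2.ext_A hj1]
      exact CA _ j (by omega) hj1
    by_cases hj2 : q2 + n ≤ j + 1
    · rw [F1.ext_C hi2 hi, F2.ext_C hj2 hj]
      exact CC _ _ (by omega) (by omega)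
    by_cases hi0 : i ≤ q1 + n
    · rw [ext_mid (by omega) (by omega), ext_mid (by omega) (by omega)]
      exact BB _ _ (by omega) (by omega)
    · rw [F1.ext_C hi2 hi, ext_mid (by omega) (by omega)]
      exact CB _ _ (by omega) (by omega) (by omega)
  · by_cases hj0 : j < q2
    · rw [ext_mid (by omega) (by omega), ext_lt hj0]
      exact BA _ _ hj0 (by omega) (by omega)
    by_cases hj1 : j ≤ q2 + n
    · rw [ext_mid (by omega) (by omega), ext_mid (by omega) (by omega)]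
      exact BB _ _ (by omega) (by omega)
    · rw [ext_mid (by omega) (by omega), ext_gt (by omega)]
      exact BC _ _ (by omega) (by omega) (by omega)

end Pool.Agent.Bootstrap
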