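import Mathlib

/-! # Groups of exponent two with a weight -/

namespace Pool.Agent.Bootstrap

/-- An abelian group of exponent two with a subadditive weight. -/
class WtGroup (G : Type) [AddCommGroup G] where
  wt : G → ℕ
  wt_zero : wt 0 = 0
  add_self : ∀ x : G, x + x = 0
  wt_add_le : ∀ x y : G, wt (x + y) ≤ wt x + wt y

export WtGroup (wt)

attribute [simp] WtGroup.wt_zero WtGroup.add_self

open WtGroup

section
variable {G : Type} [AddCommGroup G] [WtGroup G]

theorem wt_comm (x y : G) : wt (x + y) = wt (y + x) := by rw [add_comm]

theorem wt_le_add (x y : G) : wt y ≤ wt x + wt (x + y) := by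
  have h : y = x + (x + y) := by rw [← add_assoc, add_self, zero_add]
  calc wt y = wt (x + (x + y)) := by rw [← h]
    _ ≤ _ := wt_add_le _ _

theorem cancel_right (x y h : G) : (x + h) + (y + h) = x + y := by
  have : (x + h) + (y + h) = x + y + (h + h) := by abel
  rw [this, add_self, add_zero]

end

instance : WtGroup Unit where
  wt _ := 0
  wt_zero := rfl
  add_self _ := rfl
  wt_add_le _ _ := le_rfl

instance : WtGroup (ZMod 2) where
  wt x := if x = 0 then 0 else 1
  wt_zero := by simp
  add_self := by decide
  wt_add_le := by decide

instance {A B : Type} [AddCommGroup A] [AddCommGroup B] [WtGroup A] [WtGroup B] :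
    WtGroup (A × B) where
  wt x := wt x.1 + wt x.2
  wt_zero := by simp
  add_self x := by ext <;> simp
  wt_add_le x y := by
    have h1 := wt_add_le x.1 y.1
    have h2 := wt_add_le x.2 y.2
    simp only [Prod.fst_add, Prod.snd_add]
    omega

theorem wt_prod {A B : Type} [AddCommGroup A] [AddCommGroup B] [WtGroup A] [WtGroup B]
    (x : A × B) : wt x = wt x.1 + wt x.2 := rfl

instance (m : ℕ) : WtGroup (Fin m → ZMod 2) where
  wt x := hammingNorm x
  wt_zero := hammingNorm_zero
  add_self x := by
    funext i
    simp only [Pi.add_apply, Pi.zero_apply]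
    exact WtGroup.add_self (x i)
  wt_add_le x y := by
    have h1 : hammingNorm (x + y) = hammingDist (x + y) 0 := (hammingDist_zero_right _).symm
    have h2 : hammingNorm x = hammingDist x 0 := (hammingDist_zero_right _).symm
    have h3 : hammingNorm y = hammingDist (x + y) x := by
      unfold hammingNorm hammingDist
      congr 1
      ext i
      simp
    rw [h1, h2, h3, add_comm (hammingDist x 0)]
    exact hammingDist_triangle _ _ _

end Pool.Agent.Bootstrap
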